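import Mathlib

/-!
Machines, words, and averages over words.
-/

set_option autoImplicit false

namespace Pool.Agent.Helper70.FS

open Finset Filter Topology

/-- A machine with the states `Q` which reads letters of `A` and writes letters of `Γ`. -/
structure Machine (A Q Γ : Type) where
  /-- the next state -/
  next : Q → A → Q
  /-- the letter which is written -/
  out : Q → A → Γ

/-- the word of length `k` at the place `i` of a sequence -/
def window {A : Type} (y : ℕ → A) : ℕ → ℕ → List A
  | _, 0 => []
  | i, k + 1 => y i :: window y (i + 1) k

lemma window_length {A : Type} (y : ℕ → A) (i k : ℕ) : (window y i k).length = k := by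
  induction k generalizing i with
  | zero => rfl
  | succ k ih => simp [window, ih]

lemma window_add {A : Type} (y : ℕ → A) (i k l : ℕ) :
    window y i (k + l) = window y i k ++ window y (i + k) l := by
  induction k generalizing i with
  | zero => simp [window]
  | succ k ih =>
    have : k + 1 + l = (k + l) + 1 := by omega
    rw [this]
    simp only [window, List.cons_append]
    rw [ih]
    congr 3
    omega

lemma window_getElem {A : Type} (y : ℕ → A) (i k j : ℕ) (h : j < (window y i k).length) :
    (window y i k)[j] = y (i + j) := by
  induction k generalizing i j with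
  | zero => simp [window] at h
  | succ k ih =>
    rcases j with _ | j
    · simp [window]
    · simp only [window, List.getElem_cons_succ]
      rw [ih]
      congr 1
      omega

/-- the words of length `k` -/
def words (A : Type) [Fintype A] [DecidableEq A] : ℕ → Finset (List A)
  | 0 => {[]}
  | k + 1 => (Finset.univ : Finset (A × {l // l ∈ words A k})).image fun p => p.1 :: p.2.1

section

variable {A : Type} [Fintype A] [DecidableEq A]

lemma mem_words {k : ℕ} {l : List A} : l ∈ words A k ↔ l.length = k := by
  induction k generalizing l with
  | zero => simp [words]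
  | succ k ih =>
    unfold words
    simp only [Finset.mem_image, Finset.mem_univ, true_and, Prod.exists, Subtype.exists]
    constructor
    · rintro ⟨a, l', hl', rfl⟩
      simp [ih.1 hl']
    · intro h
      rcases l with _ | ⟨a, l⟩
      · simp at h
      · exact ⟨a, l, ih.2 (by simpa using h), rfl⟩

lemma sum_words_succ (k : ℕ) (F : List A → ℝ) :
    ∑ w ∈ words A (k + 1), F w = ∑ a : A, ∑ w ∈ words A k, F (a :: w) := by
  have h : words A (k + 1) =
      (Finset.univ : Finset (A × {l // l ∈ words A k})).image fun p => p.1 :: p.2.1 := rfl
  rw [h, Finset.sum_image, Fintype.sum_prod_type]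
  · apply Finset.sum_congr rfl
    intro a _
    exact Finset.sum_coe_sort (words A k) (fun l => F (a :: l))
  · rintro ⟨a, l⟩ _ ⟨a', l'⟩ _ h
    simp only [List.cons.injEq] at h
    rw [Prod.mk.injEq]
    exact ⟨h.1, Subtype.ext h.2⟩

lemma card_words (k : ℕ) : ((words A k).card : ℝ) = (Fintype.card A : ℝ) ^ k := by
  induction k with
  | zero => simp [words]
  | succ k ih =>
    have h := sum_words_succ (A := A) k (fun _ => 1)
    simp only [Finset.sum_const, nsmul_eq_mul, mul_one, Finset.card_univ] at h
    rw [h, ih]
    ring

lemma card_words' (k : ℕ) : (words A k).card = (Fintype.card A) ^ k := by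
  have h := card_words (A := A) k
  exact_mod_cast h

/-- the mean value of `F` over the words of length `k` -/
noncomputable def E (A : Type) [Fintype A] [DecidableEq A] (k : ℕ) (F : List A → ℝ) : ℝ :=
  (∑ w ∈ words A k, F w) / (Fintype.card A : ℝ) ^ k

lemma E_zero (F : List A → ℝ) : E A 0 F = F [] := by
  simp [E, words]

lemma E_succ (k : ℕ) (F : List A → ℝ) :
    E A (k + 1) F = (∑ a : A, E A k (fun w => F (a :: w))) / Fintype.card A := by
  unfold E
  rw [sum_words_succ, ← Finset.sum_div, pow_succ, div_div]

lemma E_add (k : ℕ) (F G : List A → ℝ) : E A k (fun w => F w + G w) = E A k F + E A k G := by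
  unfold E
  rw [Finset.sum_add_distrib, add_div]

lemma E_mul_left (k : ℕ) (c : ℝ) (F : List A → ℝ) : E A k (fun w => c * F w) = c * E A k F := by
  unfold E
  rw [← Finset.mul_sum, mul_div_assoc]

lemma E_mono (k : ℕ) {F G : List A → ℝ} (h : ∀ w, w.length = k → F w ≤ G w) :
    E A k F ≤ E A k G := by
  unfold E
  apply div_le_div_of_nonneg_right _ (by positivity)
  apply Finset.sum_le_sum
  intro w hw
  exact h w (mem_words.1 hw)

lemma E_congr (k : ℕ) {F G : List A → ℝ} (h : ∀ w, w.length = k → F w = G w) :
    E A k F = E A k G := by
  unfold E
  congr 1
  apply Finset.sum_congr rfl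
  intro w hw
  exact h w (mem_words.1 hw)

lemma E_sum (k : ℕ) {ι : Type} (s : Finset ι) (F : ι → List A → ℝ) :
    E A k (fun w => ∑ i ∈ s, F i w) = ∑ i ∈ s, E A k (F i) := by
  unfold E
  rw [Finset.sum_comm, Finset.sum_div]

variable [Nonempty A]

omit [DecidableEq A] in
lemma card_pos' : (0 : ℝ) < Fintype.card A := by
  exact_mod_cast Fintype.card_pos

lemma E_const (k : ℕ) (c : ℝ) : E A k (fun _ => c) = c := by
  unfold E
  rw [Finset.sum_const, nsmul_eq_mul, card_words]
  have : (Fintype.card A : ℝ) ^ k ≠ 0 := pow_ne_zero _ card_pos'.ne'
  field_simp

omit [Nonempty A] in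
/-- the mean over the words of length `k + l` is an iterated mean -/
lemma E_append (k l : ℕ) (F : List A → ℝ) :
    E A (k + l) F = E A k (fun w => E A l (fun w' => F (w ++ w'))) := by
  induction k generalizing F with
  | zero => simp [E_zero]
  | succ k ih =>
    have : k + 1 + l = (k + l) + 1 := by omega
    rw [this, E_succ, E_succ]
    congr 1
    apply Finset.sum_congr rfl
    intro a _
    rw [ih]
    rfl

end

namespace Machine

variable {A Q Γ : Type} (M : Machine A Q Γ)

/-- the word which is written while a word is read -/
def outs : Q → List A → List Γ
  | _, [] => []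
  | q, a :: l => M.out q a :: outs (M.next q a) l

/-- the state after a word has been read -/
def after (q : Q) (l : List A) : Q := l.foldl M.next q

@[simp] lemma after_nil (q : Q) : M.after q [] = q := rfl

@[simp] lemma after_cons (q : Q) (a : A) (l : List A) :
    M.after q (a :: l) = M.after (M.next q a) l := rfl

lemma after_append (q : Q) (l l' : List A) : M.after q (l ++ l') = M.after (M.after q l) l' := by
  unfold after
  rw [List.foldl_append]

@[simp] lemma outs_nil (q : Q) : M.outs q [] = [] := rfl

@[simp] lemma outs_cons (q : Q) (a : A) (l : List A) :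
    M.outs q (a :: l) = M.out q a :: M.outs (M.next q a) l := rfl

lemma outs_length (q : Q) (l : List A) : (M.outs q l).length = l.length := by
  induction l generalizing q with
  | nil => rfl
  | cons a l ih => simp [ih]

lemma outs_append (q : Q) (l l' : List A) :
    M.outs q (l ++ l') = M.outs q l ++ M.outs (M.after q l) l' := by
  induction l generalizing q with
  | nil => rfl
  | cons a l ih => simp [ih]

/-- the state after `n` letters of a sequence -/
def state (q : Q) (x : ℕ → A) : ℕ → Q
  | 0 => q
  | n + 1 => M.next (state q x n) (x n)

/-- the sequence which is written -/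
def output (q : Q) (x : ℕ → A) (n : ℕ) : Γ := M.out (M.state q x n) (x n)

lemma state_add (q : Q) (x : ℕ → A) (n k : ℕ) :
    M.state q x (n + k) = M.after (M.state q x n) (window x n k) := by
  induction k generalizing n with
  | zero => rfl
  | succ k ih =>
    have : n + (k + 1) = (n + 1) + k := by omega
    rw [this, ih]
    rfl

lemma window_output (q : Q) (x : ℕ → A) (n k : ℕ) :
    window (M.output q x) n k = M.outs (M.state q x n) (window x n k) := by
  induction k generalizing n with
  | zero => rfl
  | succ k ih =>
    simp only [window, outs_cons]
    rw [ih]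
    rfl

/-- every state can be reached from every state -/
def Connected : Prop := ∀ q q' : Q, ∃ l : List A, M.after q l = q'

/-- two different words cannot lead from the same state to the same state and be answered by the
same word -/
def Lossless : Prop :=
  ∀ (q : Q) (u v : List A), M.after q u = M.after q v → M.outs q u = M.outs q v → u = v

open Classical in
/-- the probability that the machine, in the state `q` and with independent uniformly distributed
letters to be read, writes the word `c` -/
noncomputable def prob [Fintype A] : Q → List Γ → ℝ
  | _, [] => 1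
  | q, g :: c => (∑ a : A, if M.out q a = g then prob (M.next q a) c else 0) / Fintype.card A

open Classical in
/-- a stationary distribution of the states, for independent uniformly distributed letters -/
def Stationary [Fintype A] [Fintype Q] (p : Q → ℝ) : Prop :=
  (∀ q, 0 ≤ p q) ∧ ∑ q, p q = 1 ∧
    ∀ q', ∑ q, ∑ a : A, (if M.next q a = q' then p q / Fintype.card A else 0) = p q'

end Machine

/-- the number of the places `i < N` at which the word `w` stands in `y` -/
noncomputable def occ {A : Type} (y : ℕ → A) (w : List A) (N : ℕ) : ℕ :=
  {i : ℕ | i < N ∧ ∀ (j : ℕ) (h : j < w.length), y (i + j) = w[j]}.ncard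

lemma window_eq_iff {A : Type} (y : ℕ → A) (w : List A) (i : ℕ) :
    window y i w.length = w ↔ ∀ (j : ℕ) (h : j < w.length), y (i + j) = w[j] := by
  constructor
  · intro h j hj
    have h1 := window_getElem y i w.length j (by rw [window_length]; exact hj)
    rw [← h1]
    simp only [h]
  · intro h
    apply List.ext_getElem (window_length _ _ _)
    intro j h1 h2
    rw [window_getElem, h j h2]

open Classical in
lemma occ_eq {A : Type} (y : ℕ → A) (w : List A) (N : ℕ) :
    occ y w N = ((Finset.range N).filter fun n => window y n w.length = w).card := by
  unfold occ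
  rw [← Set.ncard_coe_finset]
  congr 1
  ext i
  simp [window_eq_iff]

end Pool.Agent.Helper70.FS
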