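import Pool.Agent.Helper70.FS.Pert

/-!
Concatenations of words which are drawn from a perturbed distribution.
-/

set_option autoImplicit false

namespace Pool.Agent.Helper70.FS

open Finset Filter Topology Asymptotics

section lists

lemma window_drop_take {A : Type} (y : ℕ → A) (n i k L : ℕ) (h : i + k ≤ L) :
    ((window y n L).drop i).take k = window y (n + i) k := by
  have e : L = i + (k + (L - i - k)) := by omega
  rw [e, window_add, List.drop_left' (window_length _ _ _), window_add,
    List.take_left' (window_length _ _ _)]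

lemma cnt_mul (P : ℕ → Prop) (K T : ℕ) :
    cnt P (T * K) = ∑ i ∈ Finset.range K, cnt (fun t => P (t * K + i)) T := by
  classical
  induction T with
  | zero => simp [cnt]
  | succ T ih =>
    have e : (T + 1) * K = T * K + K := by ring
    have h1 : cnt P (T * K + K) = cnt P (T * K) +
        ∑ i ∈ Finset.range K, if P (T * K + i) then 1 else 0 := by
      rw [cnt_eq_sum, cnt_eq_sum, Finset.sum_range_add]
    rw [e, h1, ih, ← Finset.sum_add_distrib]
    apply Finset.sum_congr rfl
    intro i _
    rw [cnt_eq_sum, cnt_eq_sum, Finset.sum_range_succ]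

end lists

variable {A : Type} [Fintype A] [DecidableEq A]

section phase

variable {Q Γ : Type} (M : Machine A Q Γ)

lemma E_prob (q : Q) (c : List Γ) :
    E A c.length (fun u => ind (M.outs q u = c)) = M.prob q c := by
  classical
  rw [prob_eq, Finset.card_filter]
  unfold E
  congr 1
  push_cast
  apply Finset.sum_congr rfl
  intro u _
  rw [ind_eq]

lemma E_phase [Nonempty A] (q : Q) (i r : ℕ) (c : List Γ) :
    E A (i + (c.length + r)) (fun w => ind (((M.outs q w).drop i).take c.length = c)) =
      E A i (fun w => M.prob (M.after q w) c) := by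
  rw [E_append]
  apply E_congr
  intro w hw
  have h1 : ∀ w', (M.outs q (w ++ w')).drop i = M.outs (M.after q w) w' := by
    intro w'
    rw [M.outs_append, List.drop_left' (by rw [M.outs_length, hw])]
  simp only [h1]
  rw [E_append, ← E_prob]
  apply E_congr
  intro u hu
  have h2 : ∀ v, (M.outs (M.after q w) (u ++ v)).take c.length = M.outs (M.after q w) u := by
    intro v
    rw [M.outs_append, List.take_left' (by rw [M.outs_length, hu])]
  simp only [h2]
  rw [E_const]

/-- the probability to get from `q` to `q'` with `i` letters -/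
noncomputable def ph (i : ℕ) (q q' : Q) : ℝ := E A i (fun w => ind (M.after q w = q'))

lemma ph_nonneg (i : ℕ) (q q' : Q) : 0 ≤ ph M i q q' := by
  classical
  unfold ph E ind
  apply div_nonneg _ (by positivity)
  apply Finset.sum_nonneg
  intro w _
  split_ifs <;> norm_num

lemma ph_zero (q q' : Q) [DecidableEq Q] : ph M 0 q q' = if q = q' then 1 else 0 := by
  unfold ph
  rw [E_zero, M.after_nil, ind_eq]

variable [Fintype Q]

lemma E_after (i : ℕ) (q : Q) (f : Q → ℝ) :
    E A i (fun w => f (M.after q w)) = ∑ q', ph M i q q' * f q' := by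
  classical
  have h : ∀ w : List A, f (M.after q w) =
      ∑ q', f q' * ind (M.after q w = q') := by
    intro w
    rw [Finset.sum_eq_single_of_mem (M.after q w) (Finset.mem_univ _)]
    · rw [ind_pos rfl, mul_one]
    · intro q' _ hne
      rw [ind_neg (fun h => hne h.symm), mul_zero]
  simp_rw [h]
  rw [E_sum]
  apply Finset.sum_congr rfl
  intro q' _
  rw [E_mul_left, mul_comm]
  rfl

lemma sum_ph [Nonempty A] (i : ℕ) (q : Q) : ∑ q', ph M i q q' = 1 := by
  have h := E_after M i q (fun _ => 1)
  simp only [mul_one] at h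
  rw [← h, E_const]

lemma ph_succ [Nonempty A] (i : ℕ) (q q'' : Q) : ph M (i + 1) q q'' =
    ∑ q', ph M i q q' * ((∑ a : A, ind (M.next q' a = q'')) / Fintype.card A) := by
  rw [← E_after M i q (fun q' => (∑ a : A, ind (M.next q' a = q'')) / Fintype.card A)]
  unfold ph
  rw [E_append]
  apply E_congr
  intro w _
  have : (1 : ℕ) = 0 + 1 := rfl
  rw [this, E_succ]
  simp only [E_zero, M.after_append, M.after_cons, M.after_nil]

omit [DecidableEq A] in
lemma tr_eq (r : Q → ℝ) (q' : Q) : tr M r q' =
    ∑ q, r q * ((∑ a : A, ind (M.next q a = q')) / Fintype.card A) := by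
  classical
  unfold tr
  apply Finset.sum_congr rfl
  intro q _
  rw [Finset.sum_div, Finset.mul_sum]
  apply Finset.sum_congr rfl
  intro a _
  rw [ind_eq]
  split_ifs
  · ring
  · simp

omit [DecidableEq A] in
lemma tr_avg {ι : Type} (s : Finset ι) (f : ι → Q → ℝ) (k : ℝ) (q' : Q) :
    tr M (fun q => (∑ i ∈ s, f i q) / k) q' = (∑ i ∈ s, tr M (f i) q') / k := by
  simp_rw [tr_eq]
  rw [Finset.sum_comm, Finset.sum_div]
  apply Finset.sum_congr rfl
  intro q _
  rw [← Finset.sum_mul]
  ring

lemma tr_ph [Nonempty A] (R : Q → ℝ) (i : ℕ) (q'' : Q) :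
    tr M (fun q' => ∑ q, R q * ph M i q q') q'' = ∑ q, R q * ph M (i + 1) q q'' := by
  rw [tr_eq]
  simp_rw [ph_succ, Finset.mul_sum, Finset.sum_mul]
  rw [Finset.sum_comm]
  apply Finset.sum_congr rfl
  intro q _
  apply Finset.sum_congr rfl
  intro q' _
  ring

end phase

/-! ### The concatenation -/

section cat

variable {K : ℕ} {g : List A → ℤ}

/-- the concatenation of the words of the letters -/
def cat (a₀ : A) (z : ℕ → Alph K g) (n : ℕ) : A := (wordOf K g (z (n / K))).getD (n % K) a₀

lemma cat_apply (hK : 0 < K) (a₀ : A) (z : ℕ → Alph K g) (t i : ℕ) (hi : i < K) :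
    cat a₀ z (t * K + i) = (wordOf K g (z t)).getD i a₀ := by
  unfold cat
  have h1 : (t * K + i) / K = t := by
    rw [mul_comm, Nat.mul_add_div hK, Nat.div_eq_of_lt hi, add_zero]
  have h2 : (t * K + i) % K = i := by
    rw [mul_comm, Nat.mul_add_mod, Nat.mod_eq_of_lt hi]
  rw [h1, h2]

lemma window_cat_one (hK : 0 < K) (a₀ : A) (z : ℕ → Alph K g) (t : ℕ) :
    window (cat a₀ z) (t * K) K = wordOf K g (z t) := by
  apply List.ext_getElem
  · rw [window_length, wordOf_length]
  · intro i h1 h2
    rw [window_getElem, cat_apply hK a₀ z t i (by rwa [window_length] at h1),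
      List.getD_eq_getElem _ _ h2]

lemma window_cat (hK : 0 < K) (a₀ : A) (z : ℕ → Alph K g) (t m : ℕ) :
    window (cat a₀ z) (t * K) (m * K) = flat (window z t m) := by
  induction m generalizing t with
  | zero => simp [window, flat]
  | succ m ih =>
    have e : (m + 1) * K = K + m * K := by ring
    have e2 : t * K + K = (t + 1) * K := by ring
    rw [e, window_add, window_cat_one hK, e2, ih]
    simp only [window]
    rw [flat_cons]

variable {Q Γ : Type} (M : Machine A Q Γ)

/-- the machine which reads words -/
def blk (K : ℕ) (g : List A → ℤ) (M : Machine A Q Γ) : Machine (Alph K g) Q (Alph K g) where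
  next := fun q a => M.after q (wordOf K g a)
  out := fun _ a => a

lemma state_blk (hK : 0 < K) (a₀ : A) (z : ℕ → Alph K g) (s : Q) (t : ℕ) :
    (blk K g M).state s z t = M.state s (cat a₀ z) (t * K) := by
  induction t with
  | zero => simp [Machine.state]
  | succ t ih =>
    have e : (t + 1) * K = t * K + K := by ring
    rw [e, M.state_add, window_cat_one hK, ← ih]
    rfl

variable [Nonempty A] [Fintype Q]

omit [Nonempty A] in
lemma tr_blk (hg : ∑ w ∈ words A K, g w = 0)
    (hM : ∀ (q : Q) (G : Q × List Γ → ℝ), ∑ w ∈ words A K, (g w : ℝ) * G (M.run q w) = 0)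
    (R : Q → ℝ) (q' : Q) : tr (blk K g M) R q' = ∑ q, R q * ph M K q q' := by
  rw [tr_eq]
  apply Finset.sum_congr rfl
  intro q _
  have h := avg hg M q (hM q) (fun w => ind (M.after q w = q'))
    (fun s => ind (s.1 = q')) (fun w => rfl)
  unfold ph
  rw [← h]
  rfl

/-- the distribution of the states which one would have with uniformly distributed words -/
noncomputable def mix (s : Q) (z : ℕ → Alph K g) (T : ℕ) (q' : Q) : ℝ :=
  (∑ i ∈ Finset.range K, ∑ q, freqs (blk K g M) s z T q * ph M i q q') / K

lemma mix_mem (hK : 0 < K) (s : Q) (z : ℕ → Alph K g) :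
    ∀ᶠ T in atTop, mix M s z T ∈ simplex Q := by
  have hK0 : (0 : ℝ) < K := by exact_mod_cast hK
  filter_upwards [freqs_mem (blk K g M) s z] with T hT
  refine ⟨fun q' => ?_, ?_⟩
  · unfold mix
    apply div_nonneg _ hK0.le
    apply Finset.sum_nonneg
    intro i _
    apply Finset.sum_nonneg
    intro q _
    exact mul_nonneg (hT.1 q) (ph_nonneg M i q q')
  · unfold mix
    rw [← Finset.sum_div, Finset.sum_comm]
    have h1 : ∀ i ∈ Finset.range K, ∑ q', ∑ q, freqs (blk K g M) s z T q * ph M i q q' = 1 := by
      intro i _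
      rw [Finset.sum_comm]
      simp_rw [← Finset.mul_sum, sum_ph, mul_one]
      exact hT.2
    rw [Finset.sum_congr rfl h1, Finset.sum_const, Finset.card_range, nsmul_eq_mul, mul_one]
    exact div_self hK0.ne'

lemma tr_mix (hg : ∑ w ∈ words A K, g w = 0)
    (hM : ∀ (q : Q) (G : Q × List Γ → ℝ), ∑ w ∈ words A K, (g w : ℝ) * G (M.run q w) = 0)
    (s : Q) (z : ℕ → Alph K g) (T : ℕ) (q' : Q) :
    tr M (mix M s z T) q' - mix M s z T q' =
      (tr (blk K g M) (freqs (blk K g M) s z T) q' - freqs (blk K g M) s z T q') / K := by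
  classical
  set R := freqs (blk K g M) s z T with hR
  have h1 : tr M (mix M s z T) q' =
      (∑ i ∈ Finset.range K, ∑ q, R q * ph M (i + 1) q q') / K := by
    simp_rw [← tr_ph]
    exact tr_avg M (Finset.range K) (fun i q' => ∑ q, R q * ph M i q q') K q'
  rw [h1]
  unfold mix
  rw [← hR, ← sub_div]
  congr 1
  rw [← Finset.sum_sub_distrib, Finset.sum_range_sub (fun i => ∑ q, R q * ph M i q q')]
  rw [tr_blk M hg hM]
  congr 1
  simp_rw [ph_zero]
  simp

lemma mix_tendsto (hK : 0 < K) (hg : ∑ w ∈ words A K, g w = 0)
    (hM : ∀ (q : Q) (G : Q × List Γ → ℝ), ∑ w ∈ words A K, (g w : ℝ) * G (M.run q w) = 0)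
    (hc : M.Connected) {p : Q → ℝ} (hp : M.Stationary p) (s : Q) {z : ℕ → Alph K g}
    (hz : Fair z) : Tendsto (mix M s z) atTop (𝓝 p) := by
  apply tendsto_stationary M hc hp (mix_mem M hK s z)
  intro q'
  simp_rw [tr_mix M hg hM s z]
  have h := (freqs_tr (blk K g M) hz s q').div_const (K : ℝ)
  rwa [zero_div] at h

/-- **The output on the concatenation**, at the multiples of `K` -/
lemma cat_output (hK : 0 < K) (hg : ∑ w ∈ words A K, g w = 0)
    (hM : ∀ (q : Q) (G : Q × List Γ → ℝ), ∑ w ∈ words A K, (g w : ℝ) * G (M.run q w) = 0)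
    (a₀ : A) (s : Q) {z : ℕ → Alph K g} (hz : Fair z) (c : List Γ) :
    Small fun T => cnt (fun n => window (M.output s (cat a₀ z)) n c.length = c) (T * K) -
      K * (T * ∑ q', mix M s z T q' * M.prob q' c) := by
  classical
  set m := c.length + 1 with hm
  have hmK : ∀ i < K, ∃ r, m * K = i + (c.length + r) := by
    intro i hi
    refine ⟨m * K - i - c.length, ?_⟩
    have h1 : c.length ≤ c.length * K := Nat.le_mul_of_pos_right _ hK
    have h2 : m * K = c.length * K + K := by rw [hm]; ring
    omega
  -- one phase
  have h1 : ∀ i ∈ Finset.range K, Small fun T =>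
      cnt (fun t => window (M.output s (cat a₀ z)) (t * K + i) c.length = c) T -
        ∑ q, cnt (fun t => (blk K g M).state s z t = q) T *
          E A i (fun w => M.prob (M.after q w) c) := by
    intro i hi
    rw [Finset.mem_range] at hi
    obtain ⟨r, hr⟩ := hmK i hi
    have h2 : Small fun T => ∑ q, (cnt (fun t => (blk K g M).state s z t = q ∧
        ((M.outs q (flat (window z t m))).drop i).take c.length = c) T -
        cnt (fun t => (blk K g M).state s z t = q) T * E (Alph K g) m
          (fun W => ind (((M.outs q (flat W)).drop i).take c.length = c))) :=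
      Small.sum fun q _ => hz.set (blk K g M) (fun _ _ => rfl) s q m
        (fun W => ((M.outs q (flat W)).drop i).take c.length = c)
    refine h2.congr fun T => ?_
    rw [Finset.sum_sub_distrib]
    congr 1
    · rw [cnt_fiber (Finset.univ : Finset Q) ((blk K g M).state s z) _
        (fun n _ => Finset.mem_univ _)]
      apply Finset.sum_congr rfl
      intro q _
      apply cnt_congr
      intro t
      have h3 : window (M.output s (cat a₀ z)) (t * K + i) c.length =
          ((M.outs ((blk K g M).state s z t) (flat (window z t m))).drop i).take c.length := by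
        rw [← window_drop_take _ (t * K) i c.length (m * K) (by omega), M.window_output,
          window_cat hK, ← state_blk M hK]
      rw [h3]
      constructor
      · rintro ⟨h4, h5⟩
        rw [h4]
        exact ⟨h5, rfl⟩
      · rintro ⟨h5, h4⟩
        rw [h4] at h5
        exact ⟨h4, h5⟩
    · apply Finset.sum_congr rfl
      intro q _
      congr 1
      have h4 := E_flat hg M hM m q
        (fun w => ind (((M.outs q w).drop i).take c.length = c))
        (fun S => ind ((S.2.drop i).take c.length = c)) (fun w => rfl)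
      rw [h4, hr, E_phase]
  have h2 : Small fun T => ∑ i ∈ Finset.range K,
      (cnt (fun t => window (M.output s (cat a₀ z)) (t * K + i) c.length = c) T -
        ∑ q, cnt (fun t => (blk K g M).state s z t = q) T *
          E A i (fun w => M.prob (M.after q w) c)) := Small.sum h1
  rw [small_iff] at h2 ⊢
  refine h2.congr' ?_
  filter_upwards [eventually_gt_atTop 0] with T hT
  have hT0 : (0 : ℝ) < T := by exact_mod_cast hT
  have hK0 : (0 : ℝ) < K := by exact_mod_cast hK
  congr 1
  rw [Finset.sum_sub_distrib, ← cnt_mul (fun n => window (M.output s (cat a₀ z)) n c.length = c)]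
  congr 1
  have h5 : ∀ i ∈ Finset.range K, ∑ q, cnt (fun t => (blk K g M).state s z t = q) T *
      E A i (fun w => M.prob (M.after q w) c) =
      T * ∑ q', (∑ q, freqs (blk K g M) s z T q * ph M i q q') * M.prob q' c := by
    intro i _
    simp_rw [Finset.sum_mul]
    rw [Finset.sum_comm, Finset.mul_sum]
    apply Finset.sum_congr rfl
    intro q _
    rw [E_after M i q (fun q' => M.prob q' c)]
    unfold freqs
    rw [Finset.mul_sum, Finset.mul_sum]
    apply Finset.sum_congr rfl
    intro q' _
    field_simp
  rw [Finset.sum_congr rfl h5, ← Finset.mul_sum, Finset.sum_comm]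
  unfold mix
  have h6 : (K : ℝ) * (T * ∑ q', (∑ i ∈ Finset.range K, ∑ q,
      freqs (blk K g M) s z T q * ph M i q q') / K * M.prob q' c) =
      T * ∑ q', (∑ i ∈ Finset.range K, ∑ q,
      freqs (blk K g M) s z T q * ph M i q q') * M.prob q' c := by
    rw [Finset.mul_sum, Finset.mul_sum, Finset.mul_sum]
    apply Finset.sum_congr rfl
    intro q' _
    field_simp
  rw [h6]
  congr 1
  apply Finset.sum_congr rfl
  intro q' _
  rw [Finset.sum_mul]

end cat

/-- from the multiples of `K` to all `N` -/
lemma of_multiples {f : ℕ → ℝ} (K : ℕ) (hK : 0 < K) (C : ℝ)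
    (hstep : ∀ N r, r ≤ K → |f (N + r) - f N| ≤ C) (h : Small fun T => f (T * K)) : Small f := by
  have h1 : Small fun N => f (N / K * K) := by
    have h2 : (fun N : ℕ => f (N / K * K)) =o[atTop] fun N : ℕ => ((N / K : ℕ) : ℝ) :=
      IsLittleO.comp_tendsto h (Nat.tendsto_div_const_atTop hK.ne')
    refine h2.trans_isBigO ?_
    apply IsBigO.of_bound 1
    filter_upwards with N
    rw [Real.norm_natCast, Real.norm_natCast, one_mul]
    exact_mod_cast Nat.div_le_self N K
  have h2 : Small fun N => f N - f (N / K * K) := by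
    apply small_of_bdd C
    intro N
    have e : N = N / K * K + N % K := by rw [mul_comm]; exact (Nat.div_add_mod N K).symm
    have := hstep (N / K * K) (N % K) (Nat.mod_lt _ hK).le
    rwa [← e] at this
  exact (h1.add h2).congr fun N => by ring

end Pool.Agent.Helper70.FS
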