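import Pool.Agent.Helper70.FS.Basic

/-!
Finite automata cannot predict the letters of a sequence with bounded frequencies of words.
-/

set_option autoImplicit false

namespace Pool.Agent.Helper70.FS

open Finset Filter Topology Asymptotics

/-- `f(N) = o(N)` -/
def Small (f : ℕ → ℝ) : Prop := f =o[atTop] fun N : ℕ => (N : ℝ)

lemma small_iff (f : ℕ → ℝ) : Small f ↔ Tendsto (fun N : ℕ => f N / N) atTop (𝓝 0) := by
  unfold Small
  rw [isLittleO_iff_tendsto']
  filter_upwards [eventually_gt_atTop 0] with N hN h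
  have : (0 : ℝ) < N := by exact_mod_cast hN
  linarith

lemma Small.add {f g : ℕ → ℝ} (hf : Small f) (hg : Small g) : Small fun N => f N + g N :=
  IsLittleO.add hf hg

lemma Small.sub {f g : ℕ → ℝ} (hf : Small f) (hg : Small g) : Small fun N => f N - g N :=
  IsLittleO.sub hf hg

lemma Small.mul_left {f : ℕ → ℝ} (hf : Small f) (c : ℝ) : Small fun N => c * f N :=
  IsLittleO.const_mul_left hf c

lemma Small.sum {ι : Type} {s : Finset ι} {f : ι → ℕ → ℝ} (hf : ∀ i ∈ s, Small (f i)) :
    Small fun N => ∑ i ∈ s, f i N := by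
  have h := IsLittleO.sum hf
  have e : (∑ i ∈ s, f i) = fun N => ∑ i ∈ s, f i N := by
    funext N
    rw [Finset.sum_apply]
  rw [e] at h
  exact h

lemma Small.congr {f g : ℕ → ℝ} (hf : Small f) (h : ∀ N, f N = g N) : Small g := by
  have : f = g := funext h
  rwa [← this]

lemma small_zero : Small fun _ => 0 := isLittleO_zero _ _

lemma small_of_bdd {f : ℕ → ℝ} (C : ℝ) (hf : ∀ N, |f N| ≤ C) : Small f := by
  rw [small_iff]
  refine squeeze_zero_norm (a := fun N : ℕ => C / N) (fun N => ?_)
    (tendsto_const_nhds.div_atTop tendsto_natCast_atTop_atTop)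
  rw [norm_div, Real.norm_eq_abs, Real.norm_natCast]
  exact div_le_div_of_nonneg_right (hf N) (Nat.cast_nonneg N)

lemma Small.shift {f : ℕ → ℝ} (hf : Small f) : Small fun N => f (N + 1) := by
  unfold Small
  have h1 : (fun N => f (N + 1)) =o[atTop] fun N : ℕ => ((N + 1 : ℕ) : ℝ) :=
    IsLittleO.comp_tendsto hf (tendsto_add_atTop_nat 1)
  refine h1.trans_isBigO ?_
  apply IsBigO.of_bound 2
  filter_upwards [eventually_ge_atTop 1] with N hN
  rw [Real.norm_natCast, Real.norm_natCast]
  have : (1 : ℝ) ≤ N := by exact_mod_cast hN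
  push_cast
  linarith

open Classical in
/-- the number of the `n < N` with the property `P` -/
noncomputable def cnt (P : ℕ → Prop) (N : ℕ) : ℝ := (((Finset.range N).filter P).card : ℝ)

lemma cnt_nonneg (P : ℕ → Prop) (N : ℕ) : 0 ≤ cnt P N := Nat.cast_nonneg _

lemma cnt_le (P : ℕ → Prop) (N : ℕ) : cnt P N ≤ N := by
  classical
  unfold cnt
  calc _ ≤ ((Finset.range N).card : ℝ) := by exact_mod_cast Finset.card_filter_le _ _
    _ = N := by rw [Finset.card_range]

open Classical in
lemma cnt_eq_sum (P : ℕ → Prop) (N : ℕ) : cnt P N = ∑ n ∈ Finset.range N, if P n then 1 else 0 := by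
  unfold cnt
  rw [Finset.sum_boole]

lemma cnt_congr {P P' : ℕ → Prop} (h : ∀ n, P n ↔ P' n) (N : ℕ) : cnt P N = cnt P' N := by
  have : P = P' := funext fun n => propext (h n)
  rw [this]

lemma cnt_mono {P P' : ℕ → Prop} (h : ∀ n, P n → P' n) (N : ℕ) : cnt P N ≤ cnt P' N := by
  classical
  unfold cnt
  have : ((Finset.range N).filter P).card ≤ ((Finset.range N).filter P').card := by
    apply Finset.card_le_card
    intro n hn
    rw [Finset.mem_filter] at hn ⊢
    exact ⟨hn.1, h n hn.2⟩
  exact_mod_cast this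

/-- the count of a property which decides the value of a function -/
lemma cnt_fiber {ι : Type} [DecidableEq ι] (s : Finset ι) (f : ℕ → ι) (P : ℕ → Prop)
    (h : ∀ n, P n → f n ∈ s) (N : ℕ) : cnt P N = ∑ i ∈ s, cnt (fun n => P n ∧ f n = i) N := by
  classical
  simp_rw [cnt_eq_sum]
  rw [Finset.sum_comm]
  apply Finset.sum_congr rfl
  intro n _
  by_cases hP : P n
  · simp only [hP, true_and, if_true]
    rw [Finset.sum_ite_eq s (f n) (fun _ => (1 : ℝ)), if_pos (h n hP)]
  · simp [hP]

/-- the union bound -/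
lemma cnt_le_sum {ι : Type} (s : Finset ι) (P : ℕ → Prop) (P' : ι → ℕ → Prop)
    (h : ∀ n, P n → ∃ i ∈ s, P' i n) (N : ℕ) : cnt P N ≤ ∑ i ∈ s, cnt (P' i) N := by
  classical
  simp_rw [cnt_eq_sum]
  rw [Finset.sum_comm]
  apply Finset.sum_le_sum
  intro n _
  split_ifs with hP
  · obtain ⟨i, hi, hi'⟩ := h n hP
    calc (1 : ℝ) = if P' i n then 1 else 0 := by rw [if_pos hi']
      _ ≤ _ := Finset.single_le_sum (f := fun i => if P' i n then (1 : ℝ) else 0)
          (fun j _ => by split_ifs <;> norm_num) hi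
  · apply Finset.sum_nonneg
    intro j _
    split_ifs <;> norm_num

/-- shifting a property which does not hold at `0` -/
lemma cnt_shift {P : ℕ → Prop} (h : ¬ P 0) (N : ℕ) : cnt (fun n => P (n + 1)) N = cnt P (N + 1) := by
  classical
  rw [cnt_eq_sum, cnt_eq_sum, Finset.sum_range_succ', if_neg h, add_zero]

lemma cnt_succ_sub (P : ℕ → Prop) (N : ℕ) : |cnt P (N + 1) - cnt P N| ≤ 1 := by
  classical
  rw [cnt_eq_sum, cnt_eq_sum, Finset.sum_range_succ, add_sub_cancel_left]
  split_ifs <;> norm_num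

lemma cnt_shift_sub (P : ℕ → Prop) (N : ℕ) : |cnt (fun n => P (n + 1)) N - cnt P N| ≤ 1 := by
  classical
  have h1 : cnt (fun n => P (n + 1)) N + (if P 0 then 1 else 0) = cnt P (N + 1) := by
    rw [cnt_eq_sum, cnt_eq_sum, Finset.sum_range_succ']
  have h2 : cnt P (N + 1) = cnt P N + if P N then 1 else 0 := by
    rw [cnt_eq_sum, cnt_eq_sum, Finset.sum_range_succ]
  rw [abs_le]
  split_ifs at h1 h2 <;> constructor <;> linarith

lemma occ_eq_cnt {A : Type} (y : ℕ → A) (w : List A) (N : ℕ) :
    (occ y w N : ℝ) = cnt (fun n => window y n w.length = w) N := by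
  rw [occ_eq]
  unfold cnt
  congr

section

variable {A Q Γ : Type} [Fintype A] [DecidableEq A] [Nonempty A]

open Classical in
/-- the deviation at one place -/
noncomputable def dv (q₀ : Q) (a₀ : A) (q : Q) (a : A) : ℝ :=
  if q = q₀ then (if a = a₀ then 1 else 0) - 1 / (Fintype.card A : ℝ) else 0

omit [DecidableEq A] in
lemma one_le_card : (1 : ℝ) ≤ Fintype.card A := by
  exact_mod_cast Fintype.card_pos

lemma dv_abs (q₀ : Q) (a₀ : A) (q : Q) (a : A) : |dv q₀ a₀ q a| ≤ 1 := by
  have h1 := one_le_card (A := A)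
  have h2 : 0 ≤ 1 / (Fintype.card A : ℝ) := by positivity
  have h3 : 1 / (Fintype.card A : ℝ) ≤ 1 := by
    rw [div_le_one (by linarith)]
    exact h1
  unfold dv
  split_ifs <;> rw [abs_le] <;> constructor <;> linarith

lemma dv_sum (q₀ : Q) (a₀ : A) (q : Q) : ∑ a, dv q₀ a₀ q a = 0 := by
  unfold dv
  by_cases h : q = q₀
  · simp only [h, if_true]
    rw [Finset.sum_sub_distrib, Finset.sum_ite_eq' Finset.univ a₀ (fun _ => (1 : ℝ)),
      if_pos (Finset.mem_univ _), Finset.sum_const, Finset.card_univ, nsmul_eq_mul]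
    have : (Fintype.card A : ℝ) ≠ 0 := card_pos'.ne'
    field_simp
    ring
  · simp [h]

/-- the sum of the deviations while a word is read -/
noncomputable def dev (M : Machine A Q Γ) (q₀ : Q) (a₀ : A) : Q → List A → ℝ
  | _, [] => 0
  | q, a :: l => dv q₀ a₀ q a + dev M q₀ a₀ (M.next q a) l

variable (M : Machine A Q Γ) (q₀ : Q) (a₀ : A)

lemma E_dev (k : ℕ) (q : Q) : E A k (dev M q₀ a₀ q) = 0 := by
  induction k generalizing q with
  | zero => rw [E_zero]; rfl
  | succ k ih =>
    rw [E_succ]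
    have h : ∀ a : A, E A k (fun w => dev M q₀ a₀ q (a :: w)) = dv q₀ a₀ q a := by
      intro a
      have : (fun w => dev M q₀ a₀ q (a :: w)) =
          fun w => dv q₀ a₀ q a + dev M q₀ a₀ (M.next q a) w := rfl
      rw [this, E_add, E_const, ih, add_zero]
    simp_rw [h]
    rw [dv_sum, zero_div]

lemma E_dev_sq (k : ℕ) (q : Q) : E A k (fun w => dev M q₀ a₀ q w ^ 2) ≤ k := by
  induction k generalizing q with
  | zero => rw [E_zero]; simp [dev]
  | succ k ih =>
    rw [E_succ]
    have h : ∀ a : A, E A k (fun w => dev M q₀ a₀ q (a :: w) ^ 2) ≤ k + 1 := by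
      intro a
      have : (fun w => dev M q₀ a₀ q (a :: w) ^ 2) =
          fun w => (dv q₀ a₀ q a ^ 2 + 2 * dv q₀ a₀ q a * dev M q₀ a₀ (M.next q a) w) +
            dev M q₀ a₀ (M.next q a) w ^ 2 := by
        funext w
        show (dv q₀ a₀ q a + dev M q₀ a₀ (M.next q a) w) ^ 2 = _
        ring
      rw [this, E_add, E_add, E_const, E_mul_left, E_dev, mul_zero, add_zero]
      have h1 := ih (M.next q a)
      have h2 : dv q₀ a₀ q a ^ 2 ≤ 1 := by
        have := dv_abs q₀ a₀ q a
        rw [← sq_abs]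
        exact pow_le_one₀ (abs_nonneg _) this
      linarith
    rw [div_le_iff₀ card_pos']
    refine (Finset.sum_le_sum fun a _ => h a).trans (le_of_eq ?_)
    rw [Finset.sum_const, Finset.card_univ, nsmul_eq_mul]
    push_cast
    ring

lemma dev_abs (q : Q) (l : List A) : |dev M q₀ a₀ q l| ≤ l.length := by
  induction l generalizing q with
  | nil => simp [dev]
  | cons a l ih =>
    have h1 := dv_abs q₀ a₀ q a
    have h2 := ih (M.next q a)
    have : |dev M q₀ a₀ q (a :: l)| ≤ |dv q₀ a₀ q a| + |dev M q₀ a₀ (M.next q a) l| :=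
      abs_add_le _ _
    rw [List.length_cons]
    push_cast
    linarith

omit [Nonempty A] in
lemma dev_window (s : Q) (x : ℕ → A) (n k : ℕ) :
    dev M q₀ a₀ (M.state s x n) (window x n k) =
      ∑ t ∈ Finset.range k, dv q₀ a₀ (M.state s x (n + t)) (x (n + t)) := by
  induction k generalizing n with
  | zero => simp [window, dev]
  | succ k ih =>
    rw [Finset.sum_range_succ']
    have h := ih (n + 1)
    simp only [window, dev]
    have e : M.next (M.state s x n) (x n) = M.state s x (n + 1) := rfl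
    rw [e, h, add_comm]
    congr 1
    apply Finset.sum_congr rfl
    intro t _
    have : n + 1 + t = n + (t + 1) := by omega
    rw [this]

open Classical in
/-- the words with a large deviation -/
noncomputable def bad [Fintype Q] (K : ℕ) (ε : ℝ) : Finset (List A) :=
  (words A K).filter fun w => ∃ q, ε * K < |dev M q₀ a₀ q w|

lemma card_bad [Fintype Q] {K : ℕ} (hK : 0 < K) {ε : ℝ} (hε : 0 < ε) :
    ((bad M q₀ a₀ K ε).card : ℝ) ≤
      Fintype.card Q / (ε ^ 2 * K) * (Fintype.card A : ℝ) ^ K := by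
  classical
  have hK0 : (0 : ℝ) < K := by exact_mod_cast hK
  have hA : (0 : ℝ) < (Fintype.card A : ℝ) ^ K := pow_pos card_pos' _
  have h1 : ∀ q : Q, (((words A K).filter fun w => ε * K < |dev M q₀ a₀ q w|).card : ℝ) ≤
      1 / (ε ^ 2 * K) * (Fintype.card A : ℝ) ^ K := by
    intro q
    have h2 : (((words A K).filter fun w => ε * K < |dev M q₀ a₀ q w|).card : ℝ) * (ε * K) ^ 2 ≤
        ∑ w ∈ words A K, dev M q₀ a₀ q w ^ 2 := by
      calc _ = ∑ _w ∈ (words A K).filter fun w => ε * K < |dev M q₀ a₀ q w|, (ε * K) ^ 2 := by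
            rw [Finset.sum_const, nsmul_eq_mul]
        _ ≤ ∑ w ∈ (words A K).filter fun w => ε * K < |dev M q₀ a₀ q w|,
              dev M q₀ a₀ q w ^ 2 := by
            apply Finset.sum_le_sum
            intro w hw
            rw [Finset.mem_filter] at hw
            rw [← sq_abs (dev M q₀ a₀ q w)]
            exact pow_le_pow_left₀ (by positivity) hw.2.le 2
        _ ≤ _ := Finset.sum_le_sum_of_subset_of_nonneg (Finset.filter_subset _ _)
            fun w _ _ => sq_nonneg _
    have h3 := E_dev_sq M q₀ a₀ K q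
    unfold E at h3
    rw [div_le_iff₀ hA] at h3
    have h4 : 0 < (ε * K) ^ 2 := by positivity
    rw [← le_div_iff₀ h4] at h2
    refine h2.trans ?_
    calc _ ≤ (K * (Fintype.card A : ℝ) ^ K) / (ε * K) ^ 2 :=
          div_le_div_of_nonneg_right h3 h4.le
      _ = _ := by field_simp
  have h5 : bad M q₀ a₀ K ε ⊆ (Finset.univ : Finset Q).biUnion
      fun q => (words A K).filter fun w => ε * K < |dev M q₀ a₀ q w| := by
    intro w hw
    unfold bad at hw
    rw [Finset.mem_filter] at hw
    obtain ⟨hw1, q, hq⟩ := hw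
    rw [Finset.mem_biUnion]
    exact ⟨q, Finset.mem_univ q, Finset.mem_filter.2 ⟨hw1, hq⟩⟩
  calc ((bad M q₀ a₀ K ε).card : ℝ) ≤ ∑ q : Q,
        (((words A K).filter fun w => ε * K < |dev M q₀ a₀ q w|).card : ℝ) := by
        exact_mod_cast (Finset.card_le_card h5).trans Finset.card_biUnion_le
    _ ≤ ∑ _q : Q, 1 / (ε ^ 2 * K) * (Fintype.card A : ℝ) ^ K :=
        Finset.sum_le_sum fun q _ => h1 q
    _ = _ := by
        rw [Finset.sum_const, Finset.card_univ, nsmul_eq_mul]
        ring

/-- every word `w` has the upper frequency at most `C |A| ^ (- |w|)` -/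
def Bounded (x : ℕ → A) (C : ℝ) : Prop :=
  ∀ w : List A, ∀ η : ℝ, 0 < η → ∀ᶠ N : ℕ in atTop,
    (occ x w N : ℝ) ≤ (C / (Fintype.card A : ℝ) ^ w.length + η) * N

omit [Nonempty A] in
lemma Bounded.set {x : ℕ → A} {C : ℝ} (hx : Bounded x C) (K : ℕ) (S : Finset (List A))
    (hS : S ⊆ words A K) {η : ℝ} (hη : 0 < η) :
    ∀ᶠ N : ℕ in atTop, cnt (fun n => window x n K ∈ S) N ≤
      (C * S.card / (Fintype.card A : ℝ) ^ K + η) * N := by
  classical
  have hpos : 0 < η / (S.card + 1) := by positivity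
  have h1 : ∀ᶠ N : ℕ in atTop, ∀ w ∈ S,
      (occ x w N : ℝ) ≤ (C / (Fintype.card A : ℝ) ^ w.length + η / (S.card + 1)) * N := by
    rw [Filter.eventually_all_finset]
    intro w _
    exact hx w _ hpos
  filter_upwards [h1] with N hN
  rw [cnt_fiber S (fun n => window x n K) _ (fun n hn => hn)]
  calc _ ≤ ∑ w ∈ S, (C / (Fintype.card A : ℝ) ^ K + η / (S.card + 1)) * N := by
        apply Finset.sum_le_sum
        intro w hw
        have hlen := mem_words.1 (hS hw)
        have h2 := hN w hw
        rw [occ_eq_cnt, hlen] at h2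
        exact (cnt_mono (fun n hn => hn.2) N).trans h2
    _ = S.card * ((C / (Fintype.card A : ℝ) ^ K + η / (S.card + 1)) * N) := by
        rw [Finset.sum_const, nsmul_eq_mul]
    _ = (C * S.card / (Fintype.card A : ℝ) ^ K + η * (S.card / (S.card + 1))) * N := by
        ring
    _ ≤ _ := by
        apply mul_le_mul_of_nonneg_right _ (Nat.cast_nonneg N)
        have h3 : (S.card : ℝ) / (S.card + 1) ≤ 1 := by
          rw [div_le_one (by positivity)]
          linarith
        nlinarith

end

/-- no finite automaton can predict the letters of the sequence -/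
def Fair {A : Type} [Fintype A] (x : ℕ → A) : Prop :=
  ∀ (Q Γ : Type) (_ : Finite Q) (M : Machine A Q Γ) (s q₀ : Q) (a₀ : A),
    Small fun N => cnt (fun n => M.state s x n = q₀ ∧ x n = a₀) N -
      cnt (fun n => M.state s x n = q₀) N / (Fintype.card A : ℝ)

section

variable {A : Type} [Fintype A] [DecidableEq A] [Nonempty A]

omit [Nonempty A] in
lemma sum_dv {Q Γ : Type} (M : Machine A Q Γ) (s q₀ : Q) (a₀ : A) (x : ℕ → A) (N : ℕ) :
    ∑ n ∈ Finset.range N, dv q₀ a₀ (M.state s x n) (x n) =
      cnt (fun n => M.state s x n = q₀ ∧ x n = a₀) N -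
      cnt (fun n => M.state s x n = q₀) N / (Fintype.card A : ℝ) := by
  classical
  rw [cnt_eq_sum, cnt_eq_sum, Finset.sum_div, ← Finset.sum_sub_distrib]
  apply Finset.sum_congr rfl
  intro n _
  unfold dv
  by_cases h1 : M.state s x n = q₀ <;> by_cases h2 : x n = a₀ <;> simp [h1, h2]

/-- **Bounded frequencies imply that the letters cannot be predicted.** -/
theorem Bounded.fair {x : ℕ → A} {C : ℝ} (hC : 0 ≤ C) (hx : Bounded x C) : Fair x := by
  classical
  intro Q Γ hQ M s q₀ a₀
  have := Fintype.ofFinite Q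
  rw [small_iff]
  rw [Metric.tendsto_atTop]
  intro e he
  -- choose the length of the windows
  set ε : ℝ := e / 8 with hεdef
  have hε : 0 < ε := by positivity
  obtain ⟨K, hK⟩ := exists_nat_gt (C * (Fintype.card Q / ε ^ 2) / ε)
  have hq0 : (0 : ℝ) ≤ C * (Fintype.card Q / ε ^ 2) / ε := by positivity
  have hKr : (0 : ℝ) < K := lt_of_le_of_lt hq0 hK
  have hKpos : 0 < K := by exact_mod_cast hKr
  have hbad : C * (bad M q₀ a₀ K ε).card / (Fintype.card A : ℝ) ^ K ≤ ε := by
    have h1 := card_bad M q₀ a₀ hKpos hε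
    have hA : (0 : ℝ) < (Fintype.card A : ℝ) ^ K := pow_pos card_pos' _
    rw [div_le_iff₀ hA]
    have h2 : C * (Fintype.card Q / (ε ^ 2 * K)) ≤ ε := by
      rw [div_lt_iff₀ hε] at hK
      have : C * (Fintype.card Q / (ε ^ 2 * K)) = (C * (Fintype.card Q / ε ^ 2)) / K := by
        field_simp
      rw [this, div_le_iff₀ hKr]
      linarith
    calc C * ((bad M q₀ a₀ K ε).card : ℝ) ≤
          C * (Fintype.card Q / (ε ^ 2 * K) * (Fintype.card A : ℝ) ^ K) :=
          mul_le_mul_of_nonneg_left h1 hC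
      _ = (C * (Fintype.card Q / (ε ^ 2 * K))) * (Fintype.card A : ℝ) ^ K := by ring
      _ ≤ ε * (Fintype.card A : ℝ) ^ K := mul_le_mul_of_nonneg_right h2 hA.le
  have hev := hx.set K (bad M q₀ a₀ K ε) (Finset.filter_subset _ _) hε
  obtain ⟨N₁, hN₁⟩ := Filter.eventually_atTop.1 hev
  obtain ⟨N₂, hN₂⟩ := exists_nat_gt (2 * K / ε)
  refine ⟨max (max N₁ N₂) 1, fun N hN => ?_⟩
  have hN1 : N₁ ≤ N := (le_max_left _ _).trans ((le_max_left _ _).trans hN)
  have hN2 : N₂ ≤ N := (le_max_right _ _).trans ((le_max_left _ _).trans hN)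
  have hN3 : 1 ≤ N := (le_max_right _ _).trans hN
  have hNpos : (0 : ℝ) < N := by exact_mod_cast hN3
  have hc := hN₁ N hN1
  rw [Real.dist_eq, sub_zero, abs_div, Nat.abs_cast, div_lt_iff₀ hNpos, ← sum_dv]
  set G : ℕ → ℝ := fun n => dv q₀ a₀ (M.state s x n) (x n) with hG
  have hGabs : ∀ n, |G n| ≤ 1 := fun n => dv_abs _ _ _ _
  -- shifting the range
  have hshift : ∀ t, |∑ n ∈ Finset.range N, G (n + t) - ∑ n ∈ Finset.range N, G n| ≤ 2 * t := by
    intro t
    induction t with
    | zero => simp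
    | succ t ih =>
      have h1 : ∑ n ∈ Finset.range N, G (n + (t + 1)) + G t =
          ∑ n ∈ Finset.range N, G (n + t) + G (N + t) := by
        rw [← Finset.sum_range_succ (fun n => G (n + t)), Finset.sum_range_succ']
        simp only [zero_add]
        congr 1
        apply Finset.sum_congr rfl
        intro n _
        congr 1
        omega
      have h2 := abs_le.1 ih
      have h3 := abs_le.1 (hGabs t)
      have h4 := abs_le.1 (hGabs (N + t))
      push_cast
      rw [abs_le]
      constructor <;> linarith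
  have hsum : ∑ n ∈ Finset.range N, dev M q₀ a₀ (M.state s x n) (window x n K) =
      ∑ t ∈ Finset.range K, ∑ n ∈ Finset.range N, G (n + t) := by
    rw [Finset.sum_comm]
    apply Finset.sum_congr rfl
    intro n _
    rw [dev_window]
  have h1 : |∑ t ∈ Finset.range K, ∑ n ∈ Finset.range N, G (n + t) -
      K * ∑ n ∈ Finset.range N, G n| ≤ K * (2 * K) := by
    have : (K : ℝ) * ∑ n ∈ Finset.range N, G n =
        ∑ t ∈ Finset.range K, ∑ n ∈ Finset.range N, G n := by
      rw [Finset.sum_const, Finset.card_range, nsmul_eq_mul]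
    rw [this, ← Finset.sum_sub_distrib]
    refine (Finset.abs_sum_le_sum_abs _ _).trans ?_
    calc _ ≤ ∑ t ∈ Finset.range K, (2 * K : ℝ) := by
          apply Finset.sum_le_sum
          intro t ht
          refine (hshift t).trans ?_
          have : (t : ℝ) ≤ K := by exact_mod_cast (Finset.mem_range.1 ht).le
          linarith
      _ = _ := by rw [Finset.sum_const, Finset.card_range, nsmul_eq_mul]
  have h2 : |∑ n ∈ Finset.range N, dev M q₀ a₀ (M.state s x n) (window x n K)| ≤
      ε * K * N + K * cnt (fun n => window x n K ∈ bad M q₀ a₀ K ε) N := by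
    refine (Finset.abs_sum_le_sum_abs _ _).trans ?_
    rw [cnt_eq_sum, Finset.mul_sum]
    have : ε * K * N = ∑ n ∈ Finset.range N, ε * K := by
      rw [Finset.sum_const, Finset.card_range, nsmul_eq_mul]
      ring
    rw [this, ← Finset.sum_add_distrib]
    apply Finset.sum_le_sum
    intro n _
    by_cases hb : window x n K ∈ bad M q₀ a₀ K ε
    · rw [if_pos hb, mul_one]
      have h3 := dev_abs M q₀ a₀ (M.state s x n) (window x n K)
      rw [window_length] at h3
      have : 0 ≤ ε * K := by positivity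
      linarith
    · rw [if_neg hb, mul_zero, add_zero]
      unfold bad at hb
      rw [Finset.mem_filter] at hb
      push Not at hb
      exact hb (mem_words.2 (window_length _ _ _)) _
  rw [hsum] at h2
  have h3 : K * |∑ n ∈ Finset.range N, G n| ≤
      ε * K * N + K * cnt (fun n => window x n K ∈ bad M q₀ a₀ K ε) N + K * (2 * K) := by
    have h4 := abs_le.1 h1
    have h5 := abs_le.1 h2
    rw [← abs_of_pos hKr, ← abs_mul, abs_of_pos hKr, abs_le]
    constructor <;> linarith
  have h6 : |∑ n ∈ Finset.range N, G n| ≤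
      ε * N + cnt (fun n => window x n K ∈ bad M q₀ a₀ K ε) N + 2 * K := by
    have : K * |∑ n ∈ Finset.range N, G n| ≤
      K * (ε * N + cnt (fun n => window x n K ∈ bad M q₀ a₀ K ε) N + 2 * K) := by
      linarith
    exact le_of_mul_le_mul_left this hKr
  have h7 : (2 * K : ℝ) ≤ ε * N := by
    have : (N₂ : ℝ) ≤ N := by exact_mod_cast hN2
    have h8 := hN₂.le.trans this
    rw [div_le_iff₀ hε] at h8
    linarith
  have h8 : cnt (fun n => window x n K ∈ bad M q₀ a₀ K ε) N ≤ (ε + ε) * N := by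
    refine hc.trans ?_
    apply mul_le_mul_of_nonneg_right _ hNpos.le
    linarith
  have h9 : |∑ n ∈ Finset.range N, G n| < e * N := by
    have h10 : e * N = 8 * (ε * N) := by rw [hεdef]; ring
    have h11 : 0 < ε * N := by positivity
    linarith
  exact h9

end

end Pool.Agent.Helper70.FS
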