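import Pool.Agent.Helper70.FS.Cat
import Pool.Agent.Helper84.Places.Real

/-!
Sequences which are not normal and on which finitely many machines have a typical output.
-/

set_option autoImplicit false

namespace Pool.Agent.Helper70.FS

open Finset Filter Topology Asymptotics

theorem exists_normalSeq (A : Type) [Fintype A] [Nonempty A] : ∃ x : ℕ → A, NormalSeq x := by
  classical
  have : NeZero (Fintype.card A) := ⟨Fintype.card_ne_zero⟩
  obtain ⟨y, hy⟩ := Helper84.Places.exists_seq_S (Fintype.card A) (S := Set.univ)
    Set.infinite_univ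
  let e := Fintype.equivFin A
  refine ⟨fun n => e.symm (y n), fun w => ?_⟩
  rcases Nat.eq_zero_or_pos w.length with h | h
  · have hw : w = [] := List.length_eq_zero_iff.1 h
    subst hw
    have h1 : Tendsto (fun _ : ℕ => (1 : ℝ)) atTop (𝓝 (1 / (Fintype.card A : ℝ) ^ 0)) := by simp
    refine h1.congr' ?_
    filter_upwards [eventually_gt_atTop 0] with N hN
    have hN0 : (N : ℝ) ≠ 0 := by exact_mod_cast hN.ne'
    rw [occ_eq_cnt, cnt_eq_sum]
    simp [window, hN0]
  · have h1 := hy w.length h (fun j => e w[(j : ℕ)])
    refine h1.congr' ?_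
    filter_upwards with N
    congr 1
    · unfold Helper84.Places.cS occ
      rw [← Set.ncard_coe_finset]
      congr 2
      ext i
      simp only [Finset.coe_filter, Finset.mem_range, Set.mem_univ, true_and, Set.mem_ofPred_eq]
      apply and_congr_right
      intro _
      rw [funext_iff]
      constructor
      · intro h2 j hj
        have h3 := h2 ⟨j, hj⟩
        unfold Helper84.Places.wd at h3
        rw [e.symm_apply_eq]
        exact h3
      · intro h2 j
        unfold Helper84.Places.wd
        have h3 := h2 j.1 j.2
        rwa [e.symm_apply_eq] at h3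
    · unfold Helper84.Places.nS
      simp

lemma cnt_add_sub (P : ℕ → Prop) (N r : ℕ) : |cnt P (N + r) - cnt P N| ≤ r := by
  classical
  rw [cnt_eq_sum, cnt_eq_sum, Finset.sum_range_add, add_sub_cancel_left]
  refine (Finset.abs_sum_le_sum_abs _ _).trans ?_
  calc _ ≤ ∑ _i ∈ Finset.range r, (1 : ℝ) := by
        apply Finset.sum_le_sum
        intro i _
        split_ifs <;> norm_num
    _ = r := by rw [Finset.sum_const, Finset.card_range, nsmul_eq_mul, mul_one]

lemma Small.mul_nat {f : ℕ → ℝ} (hf : Small f) (K : ℕ) (hK : 0 < K) :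
    Small fun T => f (T * K) := by
  have h1 : Tendsto (fun T : ℕ => T * K) atTop atTop :=
    tendsto_atTop_mono (fun T => Nat.le_mul_of_pos_right T hK) tendsto_id
  have h2 : (fun T : ℕ => f (T * K)) =o[atTop] fun T : ℕ => ((T * K : ℕ) : ℝ) :=
    IsLittleO.comp_tendsto hf h1
  refine h2.trans_isBigO ?_
  apply IsBigO.of_bound K
  filter_upwards with T
  rw [Real.norm_natCast, Real.norm_natCast]
  push_cast
  rw [mul_comm]

section

variable {A : Type} [Fintype A] [DecidableEq A] [Nonempty A]

theorem exists_stationary {Q Γ : Type} [Fintype Q] (M : Machine A Q Γ) (s : Q) :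
    ∃ p, M.Stationary p := by
  obtain ⟨x, hx⟩ := exists_normalSeq A
  exact exists_stationary_of M (freqs_mem M s x) (freqs_tr M hx.fair s)

omit [DecidableEq A] [Nonempty A] in
lemma NormalSeq.letter {x : ℕ → A} (hx : NormalSeq x) (a : A) :
    Tendsto (fun N : ℕ => cnt (fun n => x n = a) N / N) atTop (𝓝 (1 / (Fintype.card A : ℝ))) := by
  have h := hx [a]
  rw [List.length_singleton, pow_one] at h
  refine h.congr fun N => ?_
  rw [occ_eq_cnt]
  congr 1
  apply cnt_congr
  intro n
  simp [window]

omit [DecidableEq A] in
lemma NormalSeq.infinite {x : ℕ → A} (hx : NormalSeq x) (a : A) (N : ℕ) :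
    ∃ n, N ≤ n ∧ x n = a := by
  classical
  by_contra hcon
  push Not at hcon
  have h1 := hx.letter a
  have h2 : Tendsto (fun n : ℕ => (N : ℝ) / n) atTop (𝓝 0) :=
    tendsto_const_nhds.div_atTop tendsto_natCast_atTop_atTop
  have h3 : Tendsto (fun n : ℕ => cnt (fun n => x n = a) n / n) atTop (𝓝 0) := by
    refine squeeze_zero (fun n => div_nonneg (cnt_nonneg _ _) (Nat.cast_nonneg _))
      (fun n => ?_) h2
    apply div_le_div_of_nonneg_right _ (Nat.cast_nonneg _)
    unfold cnt
    have : ((Finset.range n).filter fun n => x n = a) ⊆ Finset.range N := by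
      intro m hm
      rw [Finset.mem_filter] at hm
      rw [Finset.mem_range]
      by_contra h
      push Not at h
      exact hcon m h hm.2
    have h4 := Finset.card_le_card this
    rw [Finset.card_range] at h4
    exact_mod_cast h4
  have h5 := tendsto_nhds_unique h1 h3
  have h6 : (0 : ℝ) < 1 / (Fintype.card A : ℝ) := div_pos one_pos card_pos'
  linarith

/-- the machine which counts modulo `K` and copies -/
def counter (A : Type) (K : ℕ) : Machine A (ZMod K) A where
  next := fun c _ => c + 1
  out := fun _ a => a

omit [Fintype A] [DecidableEq A] [Nonempty A] in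
lemma counter_state (K : ℕ) (x : ℕ → A) (n : ℕ) : (counter A K).state 0 x n = (n : ZMod K) := by
  induction n with
  | zero => simp [Machine.state]
  | succ n ih =>
    have : (counter A K).state 0 x (n + 1) = (counter A K).state 0 x n + 1 := rfl
    rw [this, ih]
    push_cast
    rfl

/-- the frequency of a word at the multiples of `K` in a normal sequence -/
lemma NormalSeq.aligned {x : ℕ → A} (hx : NormalSeq x) (K : ℕ) (hK : 0 < K) (w : List A)
    (hw : w.length = K) : Small fun T => cnt (fun t => window x (t * K) K = w) T -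
      T * (1 / (Fintype.card A : ℝ) ^ K) := by
  classical
  have : NeZero K := ⟨hK.ne'⟩
  have h1 := (hx.fair.set (counter A K) (fun _ _ => rfl) 0 0 K (fun u => u = w)).mul_nat K hK
  refine h1.congr fun T => ?_
  have hE : E A K (fun u => ind (u = w)) = 1 / (Fintype.card A : ℝ) ^ K := by
    have h2 := E_prob (counter A K) 0 w
    rw [prob_copy (counter A K) (fun _ _ => rfl)] at h2
    rw [hw] at h2
    rw [← h2]
    apply E_congr
    intro u _
    congr 2
    have : ∀ (q : ZMod K) (u : List A), (counter A K).outs q u = u := by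
      intro q u
      induction u generalizing q with
      | nil => rfl
      | cons a u ih =>
        rw [Machine.outs_cons, ih]
        rfl
    rw [this]
  rw [hE]
  have hst : ∀ t i, i < K → ((counter A K).state 0 x (t * K + i) = 0 ↔ i = 0) := by
    intro t i hi
    rw [counter_state, ZMod.natCast_eq_zero_iff]
    constructor
    · intro h
      have h2 : K ∣ i := (Nat.dvd_add_right (Dvd.intro_left t rfl)).1 h
      exact Nat.eq_zero_of_dvd_of_lt h2 hi
    · rintro rfl
      exact Dvd.intro_left t rfl
  have e1 : ∀ P : ℕ → Prop, cnt (fun n => (counter A K).state 0 x n = 0 ∧ P n) (T * K) =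
      cnt (fun t => P (t * K)) T := by
    intro P
    rw [cnt_mul]
    rw [Finset.sum_eq_single_of_mem 0 (Finset.mem_range.2 hK)]
    · apply cnt_congr
      intro t
      constructor
      · rintro ⟨_, h⟩
        exact h
      · intro h
        exact ⟨(hst t 0 hK).2 rfl, h⟩
    · intro i hi hne
      rw [Finset.mem_range] at hi
      rw [cnt_eq_sum]
      apply Finset.sum_eq_zero
      intro t _
      rw [if_neg]
      rintro ⟨h, _⟩
      exact hne ((hst t i hi).1 h)
  have e2 : cnt (fun n => (counter A K).state 0 x n = 0) (T * K) = T := by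
    have := e1 (fun _ => True)
    simp only [and_true] at this
    rw [this, cnt_eq_sum]
    simp
  rw [e1, e2]

/-- **Finitely many machines which are not lossless can be fooled by one sequence.** -/
theorem fool (hA : 2 ≤ Fintype.card A) {ι : Type} [Fintype ι]
    (Q Γ : ι → Type) [∀ i, Fintype (Q i)]
    (M : ∀ i, Machine A (Q i) (Γ i)) (hM : ∀ i, (M i).Connected) (hL : ∀ i, ¬ (M i).Lossless) :
    ∃ x : ℕ → A, ¬ NormalSeq x ∧ (∀ i (s : Q i), (M i).Typical ((M i).output s x)) ∧
      ∀ a N, ∃ n, N ≤ n ∧ x n = a := by
  classical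
  obtain ⟨K, hK, g, ⟨w₀, hw₀, hgw⟩, hg, hMg⟩ := exists_pert hA Q Γ M hM hL
  obtain ⟨z, hz⟩ := exists_normalSeq (Alph K g)
  obtain ⟨a₀⟩ := ‹Nonempty A›
  have : Nonempty A := ⟨a₀⟩
  refine ⟨cat a₀ z, ?_, ?_, ?_⟩
  · intro hx
    have h1 := hx.aligned K hK w₀ (mem_words.1 hw₀)
    simp only [window_cat_one hK] at h1
    rw [small_iff] at h1
    have h2 : Tendsto (fun T : ℕ => cnt (fun t => wordOf K g (z t) = w₀) T / T) atTop
        (𝓝 (1 / (Fintype.card A : ℝ) ^ K)) := by
      have h3 := h1.add_const (1 / (Fintype.card A : ℝ) ^ K)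
      rw [zero_add] at h3
      refine h3.congr' ?_
      filter_upwards [eventually_gt_atTop 0] with T hT
      have hT0 : (T : ℝ) ≠ 0 := by exact_mod_cast hT.ne'
      field_simp
      ring
    have h3 : Tendsto (fun T : ℕ => cnt (fun t => wordOf K g (z t) = w₀) T / T) atTop
        (𝓝 (((bd K g : ℝ) + g w₀) / Fintype.card (Alph K g))) := by
      have h4 : Tendsto (fun T : ℕ => ∑ a ∈ Finset.univ.filter (fun a : Alph K g =>
          wordOf K g a = w₀), cnt (fun t => z t = a) T / T) atTop
          (𝓝 (∑ _a ∈ Finset.univ.filter (fun a : Alph K g => wordOf K g a = w₀),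
            1 / (Fintype.card (Alph K g) : ℝ))) := by
        apply tendsto_finsetSum
        intro a _
        exact hz.letter a
      have h5 : ∑ _a ∈ Finset.univ.filter (fun a : Alph K g => wordOf K g a = w₀),
            1 / (Fintype.card (Alph K g) : ℝ) =
            ((bd K g : ℝ) + g w₀) / Fintype.card (Alph K g) := by
        have h6 := sum_alph K g (fun w => if w = w₀ then 1 else 0)
        rw [← Finset.sum_filter, Finset.sum_const, nsmul_eq_mul, mul_one] at h6
        rw [Finset.sum_const, nsmul_eq_mul, h6]
        have h7 : ∑ w ∈ words A K, ((bd K g : ℝ) + g w) * (if w = w₀ then 1 else 0) =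
            (bd K g : ℝ) + g w₀ := by
          rw [Finset.sum_eq_single_of_mem w₀ hw₀]
          · rw [if_pos rfl, mul_one]
          · intro w _ hne
            rw [if_neg hne, mul_zero]
        rw [h7]
        ring
      rw [h5] at h4
      refine h4.congr fun T => ?_
      rw [← Finset.sum_div]
      congr 1
      rw [cnt_fiber (Finset.univ.filter (fun a : Alph K g => wordOf K g a = w₀)) z]
      · apply Finset.sum_congr rfl
        intro a ha
        rw [Finset.mem_filter] at ha
        apply cnt_congr
        intro t
        constructor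
        · intro h
          refine ⟨?_, h⟩
          rw [h]
          exact ha.2
        · rintro ⟨_, h⟩
          exact h
      · intro t ht
        rw [Finset.mem_filter]
        exact ⟨Finset.mem_univ _, ht⟩
    have h4 := tendsto_nhds_unique h2 h3
    rw [card_alph hg] at h4
    have h5 : (0 : ℝ) < (Fintype.card A : ℝ) ^ K := pow_pos card_pos' _
    have h6 := bd_pos' (K := K) (g := g)
    rw [div_eq_div_iff h5.ne' (mul_pos h6 h5).ne'] at h4
    have h7 : (g w₀ : ℝ) * (Fintype.card A : ℝ) ^ K = 0 := by linarith
    rcases mul_eq_zero.1 h7 with h8 | h8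
    · exact hgw (by exact_mod_cast h8)
    · exact h5.ne' h8
  · intro i s
    obtain ⟨p, hp⟩ := exists_stationary (M i) s
    refine ⟨p, hp, fun c => ?_⟩
    set L := ∑ q, p q * (M i).prob q c with hL'
    have h1 := cat_output (M i) hK hg (hMg i) a₀ s hz.fair c
    have h2 : Tendsto (fun T => ∑ q', mix (M i) s z T q' * (M i).prob q' c) atTop (𝓝 L) := by
      apply tendsto_finsetSum
      intro q' _
      exact ((tendsto_pi_nhds.1 (mix_tendsto (M i) hK hg (hMg i) (hM i) hp s hz.fair)) q').mul_const _
    have h3 : Small fun T : ℕ => (K : ℝ) * (T * ∑ q', mix (M i) s z T q' * (M i).prob q' c) -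
        K * (T * L) := by
      rw [small_iff]
      have h4 := (h2.sub_const L).const_mul (K : ℝ)
      rw [sub_self, mul_zero] at h4
      refine h4.congr' ?_
      filter_upwards [eventually_gt_atTop 0] with T hT
      have hT0 : (T : ℝ) ≠ 0 := by exact_mod_cast hT.ne'
      field_simp
    have h4 : Small fun N : ℕ => cnt (fun n => window ((M i).output s (cat a₀ z)) n c.length = c) N -
        N * L := by
      apply of_multiples K hK (K + K * |L|)
      · intro N r hr
        have h5 := cnt_add_sub (fun n => window ((M i).output s (cat a₀ z)) n c.length = c) N r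
        have hr' : (r : ℝ) ≤ K := by exact_mod_cast hr
        have e : cnt (fun n => window ((M i).output s (cat a₀ z)) n c.length = c) (N + r) -
            ((N + r : ℕ) : ℝ) * L -
            (cnt (fun n => window ((M i).output s (cat a₀ z)) n c.length = c) N - N * L) =
            (cnt (fun n => window ((M i).output s (cat a₀ z)) n c.length = c) (N + r) -
            cnt (fun n => window ((M i).output s (cat a₀ z)) n c.length = c) N) - r * L := by
          push_cast
          ring
        rw [e]
        refine (abs_sub _ _).trans ?_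
        rw [abs_mul, Nat.abs_cast]
        have h6 : (r : ℝ) * |L| ≤ K * |L| := mul_le_mul_of_nonneg_right hr' (abs_nonneg _)
        linarith
      · refine (h1.add h3).congr fun T => ?_
        push_cast
        ring
    rw [small_iff] at h4
    have h5 := h4.add_const L
    rw [zero_add] at h5
    refine h5.congr' ?_
    filter_upwards [eventually_gt_atTop 0] with N hN
    have hN0 : (N : ℝ) ≠ 0 := by exact_mod_cast hN.ne'
    rw [occ_eq_cnt]
    field_simp
    ring
  · intro a N
    have hw : List.replicate K a ∈ words A K := mem_words.2 List.length_replicate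
    have hpos : 0 < (bd K g : ℤ) + g (List.replicate K a) := bd_pos K g hw
    have hpos' : 0 < ((bd K g : ℤ) + g (List.replicate K a)).toNat := by omega
    obtain ⟨t, ht, hzt⟩ := hz.infinite (⟨⟨List.replicate K a, hw⟩, ⟨0, hpos'⟩⟩ : Alph K g) N
    refine ⟨t * K, ht.trans (Nat.le_mul_of_pos_right t hK), ?_⟩
    have h1 := cat_apply hK a₀ z t 0 hK
    rw [add_zero, hzt] at h1
    rw [h1]
    have h2 : wordOf K g (⟨⟨List.replicate K a, hw⟩, ⟨0, hpos'⟩⟩ : Alph K g) =
        List.replicate K a := rfl
    rw [h2, List.getD_eq_getElem _ _ (by rw [List.length_replicate]; exact hK),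
      List.getElem_replicate]

end

end Pool.Agent.Helper70.FS
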