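import Pool.Agent.Helper70.FS.Basic

/-!
A connected machine which is not lossless does not separate many words.
-/

set_option autoImplicit false

namespace Pool.Agent.Helper70.FS

open Finset Filter Topology

variable {A : Type} [Fintype A] [DecidableEq A]

section

variable {Q Γ : Type} (M : Machine A Q Γ)

/-- the state after a word and the word which is written -/
def Machine.run (q : Q) (w : List A) : Q × List Γ := (M.after q w, M.outs q w)

open Classical in
/-- the results for the words of length `K` -/
noncomputable def imgs (q : Q) (K : ℕ) : Finset (Q × List Γ) := (words A K).image (M.run q)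

lemma mem_imgs {q : Q} {w : List A} : M.run q w ∈ imgs M q w.length := by
  classical
  unfold imgs
  rw [Finset.mem_image]
  exact ⟨w, mem_words.2 rfl, rfl⟩

lemma imgs_add (q : Q) (K m : ℕ) {B : ℕ} (hB : ∀ q', (imgs M q' m).card ≤ B) :
    (imgs M q (K + m)).card ≤ (imgs M q K).card * B := by
  classical
  have hsub : imgs M q (K + m) ⊆ (imgs M q K).biUnion fun s =>
      (imgs M s.1 m).image fun s' => (s'.1, s.2 ++ s'.2) := by
    intro r hr
    unfold imgs at hr
    rw [Finset.mem_image] at hr
    obtain ⟨w, hw, rfl⟩ := hr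
    rw [mem_words] at hw
    have hlen1 : (w.take K).length = K := by rw [List.length_take]; omega
    have hlen2 : (w.drop K).length = m := by rw [List.length_drop]; omega
    rw [Finset.mem_biUnion]
    refine ⟨M.run q (w.take K), ?_, ?_⟩
    · have := mem_imgs M (q := q) (w := w.take K)
      rwa [hlen1] at this
    · rw [Finset.mem_image]
      refine ⟨M.run (M.run q (w.take K)).1 (w.drop K), ?_, ?_⟩
      · have := mem_imgs M (q := (M.run q (w.take K)).1) (w := w.drop K)
        rwa [hlen2] at this
      · have e : w = w.take K ++ w.drop K := (List.take_append_drop K w).symm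
        unfold Machine.run
        simp only
        rw [← M.after_append, ← M.outs_append, ← e]
  refine (Finset.card_le_card hsub).trans (Finset.card_biUnion_le.trans ?_)
  calc _ ≤ ∑ _s ∈ imgs M q K, B :=
        Finset.sum_le_sum fun s _ => Finset.card_image_le.trans (hB _)
    _ = _ := by rw [Finset.sum_const, smul_eq_mul]

lemma card_imgs_le (q : Q) (K : ℕ) : (imgs M q K).card ≤ Fintype.card A ^ K := by
  classical
  unfold imgs
  exact Finset.card_image_le.trans (card_words' K).le

lemma imgs_zero (q : Q) : (imgs M q 0).card ≤ 1 := by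
  have := card_imgs_le M q 0
  simpa using this

variable [Fintype Q] [Nonempty A]

/-- for some length two words have the same result, whatever the initial state -/
lemma gap (hM : M.Connected) (hL : ¬ M.Lossless) :
    ∃ m : ℕ, 0 < m ∧ ∀ q, (imgs M q m).card ≤ Fintype.card A ^ m - 1 := by
  classical
  unfold Machine.Lossless at hL
  push Not at hL
  obtain ⟨q₀, u, v, h1, h2, h3⟩ := hL
  have hlen : u.length = v.length := by
    have := congrArg List.length h2
    rwa [M.outs_length, M.outs_length] at this
  have hu : 0 < u.length := by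
    rcases Nat.eq_zero_or_pos u.length with h | h
    · exfalso
      apply h3
      rw [List.length_eq_zero_iff.1 h, List.length_eq_zero_iff.1 (hlen.symm.trans h)]
    · exact h
  choose l hl using fun q => hM q q₀
  obtain ⟨a₀⟩ := ‹Nonempty A›
  set R := (Finset.univ : Finset Q).sup fun q => (l q).length with hR
  refine ⟨R + u.length, by omega, fun q => ?_⟩
  have hlR : (l q).length ≤ R :=
    Finset.le_sup (f := fun q => (l q).length) (Finset.mem_univ q)
  set s := List.replicate (R - (l q).length) a₀ with hs
  have hslen : s.length = R - (l q).length := by rw [hs, List.length_replicate]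
  have hw1 : (l q ++ (u ++ s)).length = R + u.length := by
    rw [List.length_append, List.length_append, hslen]; omega
  have hw2 : (l q ++ (v ++ s)).length = R + u.length := by
    rw [List.length_append, List.length_append, hslen]; omega
  have hrun : M.run q (l q ++ (u ++ s)) = M.run q (l q ++ (v ++ s)) := by
    unfold Machine.run
    simp only [M.after_append, M.outs_append, hl q, h1, h2]
  have hne : l q ++ (u ++ s) ≠ l q ++ (v ++ s) := by
    intro h
    exact h3 (List.append_cancel_right (List.append_cancel_left h))
  have hlt : (imgs M q (R + u.length)).card ≠ (words A (R + u.length)).card := by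
    intro h
    unfold imgs at h
    have hinj := Finset.card_image_iff.1 h
    exact hne (hinj (Finset.mem_coe.2 (mem_words.2 hw1)) (Finset.mem_coe.2 (mem_words.2 hw2)) hrun)
  have hle := card_imgs_le M q (R + u.length)
  rw [card_words'] at hlt
  omega

/-- the proportion of the results tends to zero -/
lemma gap_tendsto (hM : M.Connected) (hL : ¬ M.Lossless) (q : Q) :
    Tendsto (fun K : ℕ => ((imgs M q K).card : ℝ) / (Fintype.card A : ℝ) ^ K) atTop (𝓝 0) := by
  obtain ⟨m, hm, h⟩ := gap M hM hL
  have hA : 0 < Fintype.card A ^ m := pow_pos Fintype.card_pos m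
  have hAr : (0 : ℝ) < (Fintype.card A : ℝ) ^ m := pow_pos card_pos' _
  set r : ℝ := ((Fintype.card A ^ m - 1 : ℕ) : ℝ) / (Fintype.card A : ℝ) ^ m with hr
  have hr0 : 0 ≤ r := by positivity
  have hr1 : r < 1 := by
    rw [hr, div_lt_one hAr]
    have h1 : Fintype.card A ^ m - 1 < Fintype.card A ^ m := by omega
    exact_mod_cast h1
  -- multiples of `m`
  have h2 : ∀ j : ℕ, ((imgs M q (j * m)).card : ℝ) / (Fintype.card A : ℝ) ^ (j * m) ≤ r ^ j := by
    intro j
    have h3 : (imgs M q (j * m)).card ≤ (Fintype.card A ^ m - 1) ^ j := by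
      induction j with
      | zero => simpa using imgs_zero M q
      | succ j ih =>
        have e : (j + 1) * m = j * m + m := by ring
        rw [e, pow_succ]
        exact (imgs_add M q (j * m) m h).trans (Nat.mul_le_mul_right _ ih)
    rw [hr, div_pow, ← pow_mul, mul_comm m j]
    apply div_le_div_of_nonneg_right _ (by positivity)
    exact_mod_cast h3
  have hanti : ∀ K l : ℕ, ((imgs M q (K + l)).card : ℝ) / (Fintype.card A : ℝ) ^ (K + l) ≤
      ((imgs M q K).card : ℝ) / (Fintype.card A : ℝ) ^ K := by
    intro K l
    have h3 := imgs_add M q K l (fun q' => card_imgs_le M q' l)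
    have h4 : ((imgs M q (K + l)).card : ℝ) ≤
        ((imgs M q K).card : ℝ) * (Fintype.card A : ℝ) ^ l := by exact_mod_cast h3
    have h5 : (0 : ℝ) < (Fintype.card A : ℝ) ^ K := pow_pos card_pos' _
    have h6 : (0 : ℝ) < (Fintype.card A : ℝ) ^ l := pow_pos card_pos' _
    rw [pow_add, div_le_div_iff₀ (by positivity) h5]
    nlinarith
  have h7 : Tendsto (fun K : ℕ => r ^ (K / m)) atTop (𝓝 0) :=
    (tendsto_pow_atTop_nhds_zero_of_lt_one hr0 hr1).comp (Nat.tendsto_div_const_atTop hm.ne')
  refine squeeze_zero (fun K => by positivity) (fun K => ?_) h7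
  have e : K = (K / m) * m + K % m := by rw [mul_comm]; exact (Nat.div_add_mod K m).symm
  calc ((imgs M q K).card : ℝ) / (Fintype.card A : ℝ) ^ K =
        ((imgs M q ((K / m) * m + K % m)).card : ℝ) /
          (Fintype.card A : ℝ) ^ ((K / m) * m + K % m) := by rw [← e]
    _ ≤ _ := hanti _ _
    _ ≤ _ := h2 _

end

/-- finitely many machines which are not lossless do not separate the words of some length -/
lemma exists_length [Nonempty A] (hA : 2 ≤ Fintype.card A) {ι : Type} [Fintype ι]
    (Q Γ : ι → Type) [∀ i, Fintype (Q i)]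
    (M : ∀ i, Machine A (Q i) (Γ i)) (hM : ∀ i, (M i).Connected) (hL : ∀ i, ¬ (M i).Lossless) :
    ∃ K : ℕ, 0 < K ∧ ∑ i, ∑ q, (imgs (M i) q K).card + 1 < Fintype.card A ^ K := by
  have h1 : Tendsto (fun K : ℕ => ∑ i, ∑ q, ((imgs (M i) q K).card : ℝ) /
      (Fintype.card A : ℝ) ^ K + 1 / (Fintype.card A : ℝ) ^ K) atTop (𝓝 0) := by
    have h2 : Tendsto (fun K : ℕ => ∑ i, ∑ q, ((imgs (M i) q K).card : ℝ) /
      (Fintype.card A : ℝ) ^ K) atTop (𝓝 (∑ i : ι, ∑ _q : Q i, (0 : ℝ))) := by
      apply tendsto_finsetSum
      intro i _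
      apply tendsto_finsetSum
      intro q _
      exact gap_tendsto (M i) (hM i) (hL i) q
    simp only [Finset.sum_const_zero] at h2
    have h3 : Tendsto (fun K : ℕ => 1 / (Fintype.card A : ℝ) ^ K) atTop (𝓝 0) := by
      have h4 : (1 : ℝ) < Fintype.card A := by exact_mod_cast hA
      have := tendsto_pow_atTop_nhds_zero_of_lt_one (r := 1 / (Fintype.card A : ℝ))
        (by positivity) (by rw [div_lt_one (by linarith)]; exact h4)
      simpa [div_pow] using this
    have := h2.add h3
    rwa [add_zero] at this
  obtain ⟨K, hK1, hK2⟩ := ((h1.eventually (gt_mem_nhds (zero_lt_one))).and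
    (eventually_gt_atTop 0)).exists
  refine ⟨K, hK2, ?_⟩
  have hpos : (0 : ℝ) < (Fintype.card A : ℝ) ^ K := pow_pos card_pos' _
  have h5 : (∑ i, ∑ q, ((imgs (M i) q K).card : ℝ) + 1) / (Fintype.card A : ℝ) ^ K < 1 := by
    refine lt_of_eq_of_lt ?_ hK1
    rw [add_div, Finset.sum_div]
    congr 1
    apply Finset.sum_congr rfl
    intro i _
    rw [Finset.sum_div]
  rw [div_lt_one hpos] at h5
  exact_mod_cast h5

end Pool.Agent.Helper70.FS
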