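import Pool.Agent.Helper70.FS.Fair

/-!
The output of a machine on a sequence whose letters cannot be predicted.
-/

set_option autoImplicit false

namespace Pool.Agent.Helper70.FS

open Finset Filter Topology Asymptotics

section flag

variable {A Q Γ : Type}

open Classical in
/-- The machine remembers whether the last state was `q` and the last letter was `a`. -/
noncomputable def flag (M : Machine A Q Γ) (q : Q) (a : A) : Machine A (Q × Bool) Γ where
  next := fun p a' => (M.next p.1 a', decide (p.1 = q ∧ a' = a))
  out := fun p a' => M.out p.1 a'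

variable (M : Machine A Q Γ) (q : Q) (a : A)

lemma flag_state (s : Q) (f : Bool) (x : ℕ → A) (n : ℕ) :
    ((flag M q a).state (s, f) x n).1 = M.state s x n := by
  induction n with
  | zero => rfl
  | succ n ih =>
    show M.next ((flag M q a).state (s, f) x n).1 (x n) = _
    rw [ih]
    rfl

lemma flag_next (p : Q × Bool) (a' : A) :
    ((flag M q a).next p a').2 = true ↔ (p.1 = q ∧ a' = a) := by
  unfold flag
  simp

lemma flag_state_succ (s : Q) (f : Bool) (x : ℕ → A) (n : ℕ) :
    ((flag M q a).state (s, f) x (n + 1)).2 = true ↔ (M.state s x n = q ∧ x n = a) := by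
  have h : (flag M q a).state (s, f) x (n + 1) =
      (flag M q a).next ((flag M q a).state (s, f) x n) (x n) := rfl
  rw [h, flag_next, flag_state]

lemma flag_output (s : Q) (f : Bool) (x : ℕ → A) :
    (flag M q a).output (s, f) x = M.output s x := by
  funext n
  show M.out ((flag M q a).state (s, f) x n).1 (x n) = _
  rw [flag_state]
  rfl

lemma flag_prob [Fintype A] (c : List Γ) (r : Q) (f : Bool) :
    (flag M q a).prob (r, f) c = M.prob r c := by
  induction c generalizing r f with
  | nil => rfl
  | cons g c ih =>
    simp only [Machine.prob]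
    congr 1
    apply Finset.sum_congr rfl
    intro a' _
    have e : (flag M q a).out (r, f) a' = M.out r a' := rfl
    rw [e]
    congr 1
    exact ih _ _

end flag

variable {A : Type} [Fintype A] [DecidableEq A] [Nonempty A]

omit [Nonempty A] in
/-- **The output of a machine which reads unpredictable letters.** -/
theorem Fair.window {x : ℕ → A} (hx : Fair x) {Γ : Type} (c : List Γ) :
    ∀ (Q : Type) (_ : Finite Q) (M : Machine A Q Γ) (s q : Q),
    Small fun N => cnt (fun n => M.state s x n = q ∧ window (M.output s x) n c.length = c) N -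
      cnt (fun n => M.state s x n = q) N * M.prob q c := by
  classical
  induction c with
  | nil =>
    intro Q _ M s q
    refine small_zero.congr fun N => ?_
    have : (fun n => M.state s x n = q ∧ FS.window (M.output s x) n ([] : List Γ).length = []) =
        fun n => M.state s x n = q := by
      funext n
      simp [FS.window]
    rw [this]
    simp [Machine.prob]
  | cons g c ih =>
    intro Q hQ M s q
    -- for one letter
    have h1 : ∀ a : A, Small fun N =>
        cnt (fun n => M.state s x n = q ∧ x n = a ∧
          FS.window (M.output s x) (n + 1) c.length = c) N -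
        cnt (fun n => M.state s x n = q) N / (Fintype.card A : ℝ) * M.prob (M.next q a) c := by
      intro a
      have h2 := (ih (Q × Bool) inferInstance (flag M q a) (s, false) (M.next q a, true)).shift
      have h3 := (hx Q Γ hQ M s q a).mul_left (M.prob (M.next q a) c)
      refine (h2.add h3).congr fun N => ?_
      have hst : ∀ n, (flag M q a).state (s, false) x (n + 1) = (M.next q a, true) ↔
          (M.state s x n = q ∧ x n = a) := by
        intro n
        constructor
        · intro h
          have := congrArg Prod.snd h
          exact (flag_state_succ M q a s false x n).1 this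
        · intro h
          apply Prod.ext
          · rw [flag_state]
            show M.next (M.state s x n) (x n) = _
            rw [h.1, h.2]
          · exact (flag_state_succ M q a s false x n).2 h
      have e0 : ¬ ((flag M q a).state (s, false) x 0 = (M.next q a, true)) := by
        intro h
        have := congrArg Prod.snd h
        simp [Machine.state] at this
      rw [flag_prob, flag_output]
      have e1 : cnt (fun n => (flag M q a).state (s, false) x n = (M.next q a, true) ∧
          FS.window (M.output s x) n c.length = c) (N + 1) =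
          cnt (fun n => M.state s x n = q ∧ x n = a ∧
            FS.window (M.output s x) (n + 1) c.length = c) N := by
        rw [← cnt_shift (fun h => e0 h.1)]
        apply cnt_congr
        intro n
        rw [hst, and_assoc]
      have e2 : cnt (fun n => (flag M q a).state (s, false) x n = (M.next q a, true)) (N + 1) =
          cnt (fun n => M.state s x n = q ∧ x n = a) N := by
        rw [← cnt_shift e0]
        apply cnt_congr
        intro n
        rw [hst]
      rw [e1, e2]
      ring
    have h4 : Small fun N => ∑ a ∈ Finset.univ.filter (fun a => M.out q a = g),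
        (cnt (fun n => M.state s x n = q ∧ x n = a ∧
          FS.window (M.output s x) (n + 1) c.length = c) N -
        cnt (fun n => M.state s x n = q) N / (Fintype.card A : ℝ) * M.prob (M.next q a) c) :=
      Small.sum fun a _ => h1 a
    refine h4.congr fun N => ?_
    rw [Finset.sum_sub_distrib]
    congr 1
    · rw [cnt_fiber (Finset.univ.filter (fun a => M.out q a = g)) x]
      · apply Finset.sum_congr rfl
        intro a ha
        rw [Finset.mem_filter] at ha
        apply cnt_congr
        intro n
        simp only [FS.window, List.length_cons, List.cons.injEq]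
        constructor
        · rintro ⟨h5, h6, h7⟩
          refine ⟨⟨h5, ?_, h7⟩, h6⟩
          show M.out (M.state s x n) (x n) = g
          rw [h5, h6]
          exact ha.2
        · rintro ⟨⟨h5, _, h7⟩, h6⟩
          exact ⟨h5, h6, h7⟩
      · intro n hn
        rw [Finset.mem_filter]
        refine ⟨Finset.mem_univ _, ?_⟩
        have h5 := hn.2
        simp only [FS.window, List.length_cons, List.cons.injEq] at h5
        have h6 : M.out (M.state s x n) (x n) = g := h5.1
        rw [hn.1] at h6
        exact h6
    · simp only [Machine.prob]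
      rw [Finset.sum_filter, mul_div_assoc', Finset.mul_sum, Finset.sum_div]
      apply Finset.sum_congr rfl
      intro a _
      split_ifs
      · ring
      · simp

/-! ### Stationary distributions -/

section stationary

variable {Q Γ : Type} [Fintype Q] (M : Machine A Q Γ)

open Classical in
/-- the distribution of the states after one step -/
noncomputable def tr (r : Q → ℝ) (q' : Q) : ℝ :=
  ∑ q, ∑ a : A, (if M.next q a = q' then r q / Fintype.card A else 0)

omit [DecidableEq A] in
lemma sum_tr (r : Q → ℝ) : ∑ q', tr M r q' = ∑ q, r q := by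
  classical
  unfold tr
  rw [Finset.sum_comm]
  apply Finset.sum_congr rfl
  intro q _
  rw [Finset.sum_comm]
  have h : ∀ a : A, ∑ q', (if M.next q a = q' then r q / (Fintype.card A : ℝ) else 0) =
      r q / Fintype.card A := by
    intro a
    rw [Finset.sum_ite_eq, if_pos (Finset.mem_univ _)]
  simp_rw [h]
  rw [Finset.sum_const, Finset.card_univ, nsmul_eq_mul]
  have : (Fintype.card A : ℝ) ≠ 0 := card_pos'.ne'
  field_simp

omit [DecidableEq A] [Nonempty A] in
lemma tr_sub (r r' : Q → ℝ) (q' : Q) :
    tr M (fun q => r q - r' q) q' = tr M r q' - tr M r' q' := by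
  unfold tr
  rw [← Finset.sum_sub_distrib]
  apply Finset.sum_congr rfl
  intro q _
  rw [← Finset.sum_sub_distrib]
  apply Finset.sum_congr rfl
  intro a _
  split_ifs
  · ring
  · ring

omit [DecidableEq A] [Nonempty A] in
lemma tr_mono {r r' : Q → ℝ} (h : ∀ q, r q ≤ r' q) (q' : Q) : tr M r q' ≤ tr M r' q' := by
  unfold tr
  apply Finset.sum_le_sum
  intro q _
  apply Finset.sum_le_sum
  intro a _
  split_ifs
  · exact div_le_div_of_nonneg_right (h q) (Nat.cast_nonneg _)
  · exact le_refl _

omit [DecidableEq A] [Nonempty A] in
lemma tr_zero (q' : Q) : tr M (fun _ => 0) q' = 0 := by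
  unfold tr
  simp

omit [DecidableEq A] [Nonempty A] in
lemma tr_ge {r : Q → ℝ} (h : ∀ q, 0 ≤ r q) (q : Q) (a : A) :
    r q / Fintype.card A ≤ tr M r (M.next q a) := by
  classical
  unfold tr
  have h1 : ∀ (q₁ : Q) (a₁ : A), 0 ≤ (if M.next q₁ a₁ = M.next q a then
      r q₁ / (Fintype.card A : ℝ) else 0) := by
    intro q₁ a₁
    split_ifs
    · exact div_nonneg (h q₁) (Nat.cast_nonneg _)
    · exact le_refl _
  calc r q / Fintype.card A = (if M.next q a = M.next q a then
        r q / (Fintype.card A : ℝ) else 0) := by rw [if_pos rfl]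
    _ ≤ ∑ a₁ : A, (if M.next q a₁ = M.next q a then r q / (Fintype.card A : ℝ) else 0) :=
        Finset.single_le_sum (f := fun a₁ => (if M.next q a₁ = M.next q a then
          r q / (Fintype.card A : ℝ) else 0)) (fun a₁ _ => h1 q a₁) (Finset.mem_univ a)
    _ ≤ _ := Finset.single_le_sum (f := fun q₁ => ∑ a₁ : A, (if M.next q₁ a₁ = M.next q a then
          r q₁ / (Fintype.card A : ℝ) else 0))
          (fun q₁ _ => Finset.sum_nonneg fun a₁ _ => h1 q₁ a₁) (Finset.mem_univ q)

omit [DecidableEq A] in
lemma stationary_unique (hM : M.Connected) {p p' : Q → ℝ} (hp : M.Stationary p)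
    (hp' : M.Stationary p') : p = p' := by
  classical
  have hP : ∀ q, tr M p q = p q := hp.2.2
  have hP' : ∀ q, tr M p' q = p' q := hp'.2.2
  -- it suffices to prove one inequality
  have key : ∀ p p' : Q → ℝ, ∑ q, p q = 1 → ∑ q, p' q = 1 → (∀ q, tr M p q = p q) →
      (∀ q, tr M p' q = p' q) → ∀ q, p q ≤ p' q := by
    intro p p' s1 s2 hP hP'
    set r : Q → ℝ := fun q => max (p q - p' q) 0 with hr
    have hr0 : ∀ q, 0 ≤ r q := fun q => le_max_right _ _
    have hr1 : ∀ q, r q ≤ tr M r q := by
      intro q
      apply max_le
      · have h1 := tr_mono M (r := fun q => p q - p' q) (r' := r) (fun q => le_max_left _ _) q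
        rw [tr_sub, hP, hP'] at h1
        exact h1
      · have h1 := tr_mono M (r := fun _ => 0) (r' := r) hr0 q
        rw [tr_zero] at h1
        exact h1
    have hr2 : ∀ q, tr M r q = r q := by
      intro q
      have h1 : ∑ q, (tr M r q - r q) = 0 := by
        rw [Finset.sum_sub_distrib, sum_tr, sub_self]
      have h2 := (Finset.sum_eq_zero_iff_of_nonneg
        (fun q _ => sub_nonneg.2 (hr1 q))).1 h1 q (Finset.mem_univ q)
      linarith
    have hstep : ∀ q (a : A), 0 < r q → 0 < r (M.next q a) := by
      intro q a hq
      have h1 := tr_ge M hr0 q a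
      rw [hr2] at h1
      have h2 : 0 < r q / (Fintype.card A : ℝ) := div_pos hq card_pos'
      linarith
    have hpath : ∀ (l : List A) q, 0 < r q → 0 < r (M.after q l) := by
      intro l
      induction l with
      | nil => intro q hq; exact hq
      | cons a l ih => intro q hq; exact ih _ (hstep q a hq)
    intro q
    by_contra hcon
    push Not at hcon
    have hq : 0 < r q := lt_of_lt_of_le (by linarith) (le_max_left _ _)
    have hall : ∀ q', p' q' < p q' := by
      intro q'
      obtain ⟨l, hl⟩ := hM q q'
      have h1 := hpath l q hq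
      rw [hl] at h1
      by_contra h2
      push Not at h2
      have h3 : r q' = 0 := max_eq_right (by linarith)
      linarith
    have hlt : ∑ q, p' q < ∑ q, p q :=
      Finset.sum_lt_sum (fun q _ => (hall q).le) ⟨q, Finset.mem_univ q, hall q⟩
    linarith
  funext q
  exact le_antisymm (key p p' hp.2.1 hp'.2.1 hP hP' q) (key p' p hp'.2.1 hp.2.1 hP' hP q)

/-- the probability vectors -/
def simplex (Q : Type) [Fintype Q] : Set (Q → ℝ) := {r | (∀ q, 0 ≤ r q) ∧ ∑ q, r q = 1}

omit [DecidableEq A] [Nonempty A] in
lemma simplex_compact : IsCompact (simplex Q) := by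
  have h1 : IsClosed (simplex Q) := by
    have e : simplex Q = (⋂ q, {r : Q → ℝ | 0 ≤ r q}) ∩ {r | ∑ q, r q = 1} := by
      ext r
      simp [simplex]
    rw [e]
    apply IsClosed.inter
    · apply isClosed_iInter
      intro q
      exact isClosed_le continuous_const (continuous_apply q)
    · exact isClosed_eq (continuous_finsetSum _ fun q _ => continuous_apply q) continuous_const
  have h2 : simplex Q ⊆ Set.pi Set.univ fun _ : Q => Set.Icc (0 : ℝ) 1 := by
    intro r hr q _
    refine ⟨hr.1 q, ?_⟩
    rw [← hr.2]
    exact Finset.single_le_sum (fun q _ => hr.1 q) (Finset.mem_univ q)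
  exact (isCompact_univ_pi fun _ => isCompact_Icc).of_isClosed_subset h1 h2

omit [DecidableEq A] [Nonempty A] in
lemma continuous_tr (q' : Q) : Continuous fun r : Q → ℝ => tr M r q' := by
  classical
  unfold tr
  apply continuous_finsetSum
  intro q _
  apply continuous_finsetSum
  intro a _
  split_ifs
  · exact (continuous_apply q).div_const _
  · exact continuous_const

omit [DecidableEq A] [Nonempty A] in
lemma limit_stationary {ρ : ℕ → Q → ℝ} (h1 : ∀ q', Tendsto (fun N => tr M (ρ N) q' - ρ N q')
    atTop (𝓝 0)) {U : Filter ℕ} [U.NeBot] (hU : U ≤ atTop) {r : Q → ℝ} (hr : r ∈ simplex Q)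
    (hlim : Tendsto ρ U (𝓝 r)) : M.Stationary r := by
  refine ⟨hr.1, hr.2, fun q' => ?_⟩
  have h2 : Tendsto (fun N => tr M (ρ N) q' - ρ N q') U (𝓝 (tr M r q' - r q')) :=
    (((continuous_tr M q').tendsto r).comp hlim).sub
      (((continuous_apply q').tendsto r).comp hlim)
  have h3 := tendsto_nhds_unique h2 ((h1 q').mono_left hU)
  show tr M r q' = r q'
  linarith

omit [DecidableEq A] [Nonempty A] in
lemma exists_stationary_of {ρ : ℕ → Q → ℝ} (h0 : ∀ᶠ N in atTop, ρ N ∈ simplex Q)
    (h1 : ∀ q', Tendsto (fun N => tr M (ρ N) q' - ρ N q') atTop (𝓝 0)) :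
    ∃ p, M.Stationary p := by
  have h2 : Filter.map ρ (Ultrafilter.of (atTop : Filter ℕ) : Filter ℕ) ≤ 𝓟 (simplex Q) := by
    rw [Filter.le_principal_iff, Filter.mem_map]
    exact Ultrafilter.of_le _ h0
  obtain ⟨r, hr, hr2⟩ := (simplex_compact (Q := Q)).ultrafilter_le_nhds
    ((Ultrafilter.of (atTop : Filter ℕ)).map ρ) h2
  exact ⟨r, limit_stationary M h1 (Ultrafilter.of_le _) hr hr2⟩

omit [DecidableEq A] in
lemma tendsto_stationary (hM : M.Connected) {p : Q → ℝ} (hp : M.Stationary p)
    {ρ : ℕ → Q → ℝ} (h0 : ∀ᶠ N in atTop, ρ N ∈ simplex Q)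
    (h1 : ∀ q', Tendsto (fun N => tr M (ρ N) q' - ρ N q') atTop (𝓝 0)) :
    Tendsto ρ atTop (𝓝 p) := by
  apply (simplex_compact (Q := Q)).tendsto_nhds_of_unique_mapClusterPt h0
  intro r hr hcl
  rw [mapClusterPt_iff_ultrafilter] at hcl
  obtain ⟨U, hU, hlim⟩ := hcl
  exact stationary_unique M hM (limit_stationary M h1 hU hr hlim) hp

end stationary

end Pool.Agent.Helper70.FS
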