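import Pool.Agent.Helper70.FS.General

/-!
Normal sequences, typical outputs and lossless machines.
-/

set_option autoImplicit false

namespace Pool.Agent.Helper70.FS

open Finset Filter Topology Asymptotics

variable {A : Type} [Fintype A] [DecidableEq A] [Nonempty A]

/-- every word has the frequency `|A| ^ (- length)` -/
def NormalSeq {A : Type} [Fintype A] (x : ℕ → A) : Prop :=
  ∀ w : List A, Tendsto (fun N : ℕ => (occ x w N : ℝ) / N) atTop
    (𝓝 (1 / (Fintype.card A : ℝ) ^ w.length))

omit [DecidableEq A] [Nonempty A] in
lemma NormalSeq.bounded {x : ℕ → A} (hx : NormalSeq x) : Bounded x 1 := by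
  intro w η hη
  filter_upwards [(hx w).eventually (gt_mem_nhds (lt_add_of_pos_right _ hη)),
    eventually_gt_atTop 0] with N hN hN0
  have : (0 : ℝ) < N := by exact_mod_cast hN0
  rw [div_lt_iff₀ this] at hN
  exact hN.le

lemma NormalSeq.fair {x : ℕ → A} (hx : NormalSeq x) : Fair x :=
  hx.bounded.fair zero_le_one

/-- the machine which copies -/
def copy (A : Type) : Machine A Unit A where
  next := fun _ _ => ()
  out := fun _ a => a

omit [DecidableEq A] [Nonempty A] in
lemma copy_prob (w : List A) : (copy A).prob () w = 1 / (Fintype.card A : ℝ) ^ w.length := by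
  classical
  induction w with
  | nil => simp [Machine.prob]
  | cons a w ih =>
    have e : (copy A).prob () (a :: w) = (∑ a' : A, if (copy A).out () a' = a then
      (copy A).prob ((copy A).next () a') w else 0) / Fintype.card A := by
      simp only [Machine.prob]
    have e2 : ∀ a' : A, (if (copy A).out () a' = a then
      (copy A).prob ((copy A).next () a') w else 0) = if a' = a then (copy A).prob () w else 0 :=
      fun a' => rfl
    rw [e]
    simp_rw [e2]
    rw [Finset.sum_ite_eq' Finset.univ a, if_pos (Finset.mem_univ _), ih, List.length_cons,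
      pow_succ, div_div]

omit [Nonempty A] in
lemma Fair.normal {x : ℕ → A} (hx : Fair x) : NormalSeq x := by
  intro w
  have h := hx.window w Unit inferInstance (copy A) () ()
  rw [small_iff] at h
  have h2 := h.add_const (1 / (Fintype.card A : ℝ) ^ w.length)
  rw [zero_add] at h2
  refine h2.congr' ?_
  filter_upwards [eventually_gt_atTop 0] with N hN
  have hN0 : (0 : ℝ) < N := by exact_mod_cast hN
  have e1 : cnt (fun n => (copy A).state () x n = ()) N = N := by
    classical
    rw [cnt_eq_sum]
    simp
  have e2 : cnt (fun n => (copy A).state () x n = () ∧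
      FS.window ((copy A).output () x) n w.length = w) N = occ x w N := by
    rw [occ_eq_cnt]
    apply cnt_congr
    intro n
    have : (copy A).output () x = x := rfl
    rw [this]
    simp
  rw [e1, e2, copy_prob]
  field_simp
  ring

section

variable {Q Γ : Type} [Fintype Q] (M : Machine A Q Γ)

/-- the frequencies of the states -/
noncomputable def freqs (s : Q) (x : ℕ → A) (N : ℕ) (q : Q) : ℝ :=
  cnt (fun n => M.state s x n = q) N / N

omit [Fintype A] [DecidableEq A] [Nonempty A] in
lemma freqs_mem (s : Q) (x : ℕ → A) : ∀ᶠ N in atTop, freqs M s x N ∈ simplex Q := by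
  classical
  filter_upwards [eventually_gt_atTop 0] with N hN
  have hN0 : (0 : ℝ) < N := by exact_mod_cast hN
  refine ⟨fun q => div_nonneg (cnt_nonneg _ _) hN0.le, ?_⟩
  unfold freqs
  rw [← Finset.sum_div]
  have h := cnt_fiber (Finset.univ : Finset Q) (M.state s x) (fun _ => True)
    (fun n _ => Finset.mem_univ _) N
  simp only [true_and] at h
  rw [← h, cnt_eq_sum]
  simp only [if_true, Finset.sum_const, Finset.card_range, nsmul_eq_mul, mul_one]
  exact div_self hN0.ne'

omit [Nonempty A] in
lemma freqs_tr {x : ℕ → A} (hx : Fair x) (s : Q) (q' : Q) :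
    Tendsto (fun N => tr M (freqs M s x N) q' - freqs M s x N q') atTop (𝓝 0) := by
  classical
  have h1 : Small fun N => ∑ q : Q, ∑ a ∈ Finset.univ.filter (fun a : A => M.next q a = q'),
      (cnt (fun n => M.state s x n = q ∧ x n = a) N -
        cnt (fun n => M.state s x n = q) N / (Fintype.card A : ℝ)) :=
    Small.sum fun q _ => Small.sum fun a _ => hx Q Γ inferInstance M s q a
  have h2 : Small fun N => cnt (fun n => M.state s x (n + 1) = q') N -
      cnt (fun n => M.state s x n = q') N :=
    small_of_bdd 1 fun N => cnt_shift_sub (fun n => M.state s x n = q') N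
  have h3 := h2.sub h1
  rw [small_iff] at h3
  refine h3.congr' ?_
  filter_upwards [eventually_gt_atTop 0] with N hN
  have hN0 : (0 : ℝ) < N := by exact_mod_cast hN
  have e1 : cnt (fun n => M.state s x (n + 1) = q') N =
      ∑ q : Q, ∑ a ∈ Finset.univ.filter (fun a : A => M.next q a = q'),
        cnt (fun n => M.state s x n = q ∧ x n = a) N := by
    rw [cnt_fiber (Finset.univ : Finset Q) (M.state s x) _ (fun n _ => Finset.mem_univ _)]
    apply Finset.sum_congr rfl
    intro q _
    rw [cnt_fiber (Finset.univ.filter (fun a : A => M.next q a = q')) x]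
    · apply Finset.sum_congr rfl
      intro a ha
      rw [Finset.mem_filter] at ha
      apply cnt_congr
      intro n
      constructor
      · rintro ⟨⟨_, h5⟩, h6⟩
        exact ⟨h5, h6⟩
      · rintro ⟨h5, h6⟩
        refine ⟨⟨?_, h5⟩, h6⟩
        show M.next (M.state s x n) (x n) = q'
        rw [h5, h6]
        exact ha.2
    · rintro n ⟨h5, h6⟩
      rw [Finset.mem_filter]
      refine ⟨Finset.mem_univ _, ?_⟩
      have : M.next (M.state s x n) (x n) = q' := h5
      rwa [h6] at this
  have e2 : tr M (freqs M s x N) q' = (∑ q : Q, ∑ a ∈ Finset.univ.filter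
      (fun a : A => M.next q a = q'), cnt (fun n => M.state s x n = q) N /
        (Fintype.card A : ℝ)) / N := by
    unfold tr freqs
    rw [Finset.sum_div]
    apply Finset.sum_congr rfl
    intro q _
    rw [Finset.sum_filter, Finset.sum_div]
    apply Finset.sum_congr rfl
    intro a _
    split_ifs
    · rw [div_div, div_div, mul_comm (N : ℝ)]
    · rw [zero_div]
  rw [e1, e2]
  simp_rw [Finset.sum_sub_distrib]
  unfold freqs
  field_simp
  ring

/-- the frequencies of the words which are written are those for random letters -/
def Machine.Typical (y : ℕ → Γ) : Prop :=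
  ∃ p : Q → ℝ, M.Stationary p ∧ ∀ c : List Γ,
    Tendsto (fun N : ℕ => (occ y c N : ℝ) / N) atTop (𝓝 (∑ q, p q * M.prob q c))

theorem Fair.tendsto_freqs {x : ℕ → A} (hx : Fair x) (hM : M.Connected) {p : Q → ℝ}
    (hp : M.Stationary p) (s : Q) : Tendsto (freqs M s x) atTop (𝓝 p) :=
  tendsto_stationary M hM hp (freqs_mem M s x) (freqs_tr M hx s)

omit [Nonempty A] in
/-- the frequencies of the words which are written, given the frequencies of the states -/
lemma Fair.output {x : ℕ → A} (hx : Fair x) (s : Q) (c : List Γ) :
    Tendsto (fun N : ℕ => (occ (M.output s x) c N : ℝ) / N -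
      ∑ q, freqs M s x N q * M.prob q c) atTop (𝓝 0) := by
  classical
  have h1 : Small fun N => ∑ q : Q,
      (cnt (fun n => M.state s x n = q ∧ FS.window (M.output s x) n c.length = c) N -
      cnt (fun n => M.state s x n = q) N * M.prob q c) :=
    Small.sum fun q _ => hx.window c Q inferInstance M s q
  rw [small_iff] at h1
  refine h1.congr fun N => ?_
  rw [occ_eq_cnt, cnt_fiber (Finset.univ : Finset Q) (M.state s x) _
    (fun n _ => Finset.mem_univ _), Finset.sum_sub_distrib, sub_div, Finset.sum_div, Finset.sum_div,
    Finset.sum_div]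
  congr 1
  · apply Finset.sum_congr rfl
    intro q _
    congr 1
    apply cnt_congr
    intro n
    exact and_comm
  · apply Finset.sum_congr rfl
    intro q _
    unfold freqs
    ring

theorem Fair.typical {x : ℕ → A} (hx : Fair x) (hM : M.Connected) {p : Q → ℝ}
    (hp : M.Stationary p) (s : Q) (c : List Γ) :
    Tendsto (fun N : ℕ => (occ (M.output s x) c N : ℝ) / N) atTop
      (𝓝 (∑ q, p q * M.prob q c)) := by
  have h1 := hx.output M s c
  have h2 := hx.tendsto_freqs M hM hp s
  have h3 : Tendsto (fun N => ∑ q, freqs M s x N q * M.prob q c) atTop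
      (𝓝 (∑ q, p q * M.prob q c)) := by
    apply tendsto_finsetSum
    intro q _
    exact ((tendsto_pi_nhds.1 h2) q).mul_const _
  have h4 := h1.add h3
  rw [zero_add] at h4
  exact h4.congr fun N => by ring

/-! ### Lossless machines -/

open Classical in
omit [Nonempty A] [Fintype Q] in
lemma prob_eq (q : Q) (c : List Γ) :
    M.prob q c = (((words A c.length).filter fun u => M.outs q u = c).card : ℝ) /
      (Fintype.card A : ℝ) ^ c.length := by
  induction c generalizing q with
  | nil => simp [Machine.prob, words, Finset.filter_singleton]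
  | cons g c ih =>
    simp only [Machine.prob]
    rw [List.length_cons, Finset.card_filter]
    push_cast
    rw [sum_words_succ, pow_succ, ← div_div]
    congr 1
    rw [Finset.sum_div]
    apply Finset.sum_congr rfl
    intro a _
    simp only [Machine.outs_cons, List.cons.injEq]
    split_ifs with h
    · rw [ih, Finset.card_filter]
      push_cast
      congr 1
      apply Finset.sum_congr rfl
      intro w _
      simp [h]
    · simp [h]

omit [Nonempty A] in
lemma prob_le (hM : M.Lossless) (q : Q) (c : List Γ) :
    M.prob q c ≤ Fintype.card Q / (Fintype.card A : ℝ) ^ c.length := by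
  classical
  rw [prob_eq]
  apply div_le_div_of_nonneg_right _ (by positivity)
  have h : ((words A c.length).filter fun u => M.outs q u = c).card ≤
      (Finset.univ : Finset Q).card := by
    apply Finset.card_le_card_of_injOn (fun u => M.after q u) (fun _ _ => Finset.mem_univ _)
    intro u hu v hv huv
    simp only [Finset.coe_filter, Set.mem_ofPred_eq] at hu hv
    exact hM q u v huv (hu.2.trans hv.2.symm)
  rw [Finset.card_univ] at h
  exact_mod_cast h

/-- **Bounded frequencies of the words which are written** -/
theorem normal_of_bounded (s : Q) (x : ℕ → A) (C : ℝ) (hC : 0 ≤ C)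
    (h : ∀ c : List Γ, ∀ η : ℝ, 0 < η → ∀ᶠ N : ℕ in atTop,
      (occ (M.output s x) c N : ℝ) ≤ (C / (Fintype.card A : ℝ) ^ c.length + η) * N) :
    NormalSeq x := by
  classical
  have hb : Bounded x (Fintype.card Q * C) := by
    intro w η hη
    have hη' : 0 < η / (Fintype.card Q + 1) := by positivity
    have h1 : ∀ᶠ N : ℕ in atTop, ∀ q : Q, (occ (M.output s x) (M.outs q w) N : ℝ) ≤
        (C / (Fintype.card A : ℝ) ^ w.length + η / (Fintype.card Q + 1)) * N := by
      rw [Filter.eventually_all]
      intro q
      have := h (M.outs q w) _ hη'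
      rwa [M.outs_length] at this
    filter_upwards [h1] with N hN
    rw [occ_eq_cnt]
    have h2 : cnt (fun n => window x n w.length = w) N ≤
        ∑ q : Q, cnt (fun n => window (M.output s x) n (M.outs q w).length = M.outs q w) N := by
      apply cnt_le_sum (Finset.univ : Finset Q)
      intro n hn
      refine ⟨M.state s x n, Finset.mem_univ _, ?_⟩
      rw [M.outs_length, M.window_output, hn]
    refine h2.trans ?_
    calc _ ≤ ∑ _q : Q, (C / (Fintype.card A : ℝ) ^ w.length + η / (Fintype.card Q + 1)) * N := by
          apply Finset.sum_le_sum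
          intro q _
          rw [← occ_eq_cnt]
          exact hN q
      _ = (Fintype.card Q * C / (Fintype.card A : ℝ) ^ w.length +
            η * (Fintype.card Q / (Fintype.card Q + 1))) * N := by
          rw [Finset.sum_const, Finset.card_univ, nsmul_eq_mul]
          ring
      _ ≤ _ := by
          apply mul_le_mul_of_nonneg_right _ (Nat.cast_nonneg N)
          have h3 : (Fintype.card Q : ℝ) / (Fintype.card Q + 1) ≤ 1 := by
            rw [div_le_one (by positivity)]
            linarith
          nlinarith
  exact (hb.fair (by positivity)).normal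

/-- **Lossless machines decide normality.** -/
theorem normal_of_lossless (hM : M.Lossless) (s : Q) (x : ℕ → A)
    (h : M.Typical (M.output s x)) : NormalSeq x := by
  obtain ⟨p, hp, hlim⟩ := h
  refine normal_of_bounded M s x (Fintype.card Q) (Nat.cast_nonneg _) fun c η hη => ?_
  have hle : ∑ q, p q * M.prob q c ≤ Fintype.card Q / (Fintype.card A : ℝ) ^ c.length := by
    calc _ ≤ ∑ q, p q * (Fintype.card Q / (Fintype.card A : ℝ) ^ c.length) :=
          Finset.sum_le_sum fun q _ => mul_le_mul_of_nonneg_left (prob_le M hM q c) (hp.1 q)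
      _ = _ := by rw [← Finset.sum_mul, hp.2.1, one_mul]
  filter_upwards [(hlim c).eventually (gt_mem_nhds (lt_of_le_of_lt hle
    (lt_add_of_pos_right _ hη))), eventually_gt_atTop 0] with N hN hN0
  have : (0 : ℝ) < N := by exact_mod_cast hN0
  rw [div_lt_iff₀ this] at hN
  exact hN.le

end

end Pool.Agent.Helper70.FS
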