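import Pool.Agent.Helper70.FS.Gap
import Pool.Agent.Helper70.FS.Typical

/-!
A perturbation of the uniform distribution of the words of some length which finitely many
machines do not notice, and the alphabet which realises it.
-/

set_option autoImplicit false

namespace Pool.Agent.Helper70.FS

open Finset Filter Topology Asymptotics

variable {A : Type} [Fintype A] [DecidableEq A]

/-- the incidence between the conditions and the words -/
def cond {K : ℕ} {ι : Type} {Q Γ : ι → Type} (M : ∀ i, Machine A (Q i) (Γ i)) :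
    Option (Σ i : ι, Σ q : Q i, {s // s ∈ imgs (M i) q K}) → {w // w ∈ words A K} → Prop
  | none, _ => True
  | some y, w => (M y.1).run y.2.1 w.1 = y.2.2.1

theorem exists_pert [Nonempty A] (hA : 2 ≤ Fintype.card A) {ι : Type} [Fintype ι]
    (Q Γ : ι → Type) [∀ i, Fintype (Q i)]
    (M : ∀ i, Machine A (Q i) (Γ i)) (hM : ∀ i, (M i).Connected) (hL : ∀ i, ¬ (M i).Lossless) :
    ∃ K : ℕ, 0 < K ∧ ∃ g : List A → ℤ, (∃ w ∈ words A K, g w ≠ 0) ∧ ∑ w ∈ words A K, g w = 0 ∧
      ∀ (i : ι) (q : Q i) (G : Q i × List (Γ i) → ℝ),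
        ∑ w ∈ words A K, (g w : ℝ) * G ((M i).run q w) = 0 := by
  classical
  obtain ⟨K, hK, hlt⟩ := exists_length hA Q Γ M hM hL
  refine ⟨K, hK, ?_⟩
  have hcard : Fintype.card (Option (Σ i : ι, Σ q : Q i, {s // s ∈ imgs (M i) q K})) <
      Fintype.card {w // w ∈ words A K} := by
    rw [Fintype.card_option, Fintype.card_coe, card_words', Fintype.card_sigma]
    refine lt_of_eq_of_lt ?_ hlt
    congr 1
    apply Finset.sum_congr rfl
    intro i _
    rw [Fintype.card_sigma]
    apply Finset.sum_congr rfl
    intro q _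
    rw [Fintype.card_coe]
  let Mat : Matrix (Option (Σ i : ι, Σ q : Q i, {s // s ∈ imgs (M i) q K}))
      {w // w ∈ words A K} ℤ := Matrix.of fun y w => if cond M y w then 1 else 0
  have hninj : ¬ Function.Injective (Matrix.mulVecLin Mat) := by
    intro hinj
    have := card_le_of_injective ℤ (Matrix.mulVecLin Mat) hinj
    omega
  rw [injective_iff_map_eq_zero] at hninj
  push Not at hninj
  obtain ⟨g, hg0, hg⟩ := hninj
  have hg1 : ∀ y, ∑ w, (if cond M y w then g w else 0) = 0 := by
    intro y
    have h := congrFun hg0 y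
    have h' : ∑ w, Mat y w * g w = 0 := h
    have e : ∑ w, (if cond M y w then g w else 0) = ∑ w, Mat y w * g w := by
      apply Finset.sum_congr rfl
      intro w _
      by_cases hc : cond M y w
      · simp [Mat, hc]
      · simp [Mat, hc]
    rw [e, h']
  refine ⟨fun w => if h : w ∈ words A K then g ⟨w, h⟩ else 0, ?_, ?_, ?_⟩
  · obtain ⟨w, hw⟩ := Function.ne_iff.1 hg
    refine ⟨w.1, w.2, ?_⟩
    simp only [w.2, dif_pos]
    exact hw
  · have h1 := hg1 none
    rw [← Finset.sum_coe_sort]
    refine Eq.trans ?_ h1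
    apply Finset.sum_congr rfl
    intro w _
    rw [dif_pos w.2, if_pos (show cond M none w from trivial)]
  · intro i q G
    have h2 : ∀ s ∈ imgs (M i) q K,
        ∑ w : {w // w ∈ words A K}, (if (M i).run q w.1 = s then (g w : ℝ) else 0) = 0 := by
      intro s hs
      have h3 := hg1 (some ⟨i, q, s, hs⟩)
      have h4 : ∑ w : {w // w ∈ words A K}, (if (M i).run q w.1 = s then g w else 0) = 0 := by
        refine Eq.trans ?_ h3
        apply Finset.sum_congr rfl
        intro w _
        by_cases h : (M i).run q w.1 = s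
        · rw [if_pos h, if_pos (show cond M (some ⟨i, q, s, hs⟩) w from h)]
        · rw [if_neg h, if_neg (show ¬ cond M (some ⟨i, q, s, hs⟩) w from h)]
      exact_mod_cast h4
    have h4 : ∑ w ∈ words A K, (((if h : w ∈ words A K then g ⟨w, h⟩ else 0 : ℤ)) : ℝ) *
        G ((M i).run q w) = ∑ w : {w // w ∈ words A K}, (g w : ℝ) * G ((M i).run q w.1) := by
      rw [← Finset.sum_coe_sort]
      apply Finset.sum_congr rfl
      intro w _
      rw [dif_pos w.2]
    rw [h4]
    have h5 : ∀ w : {w // w ∈ words A K}, (g w : ℝ) * G ((M i).run q w.1) =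
        ∑ s ∈ imgs (M i) q K, (if (M i).run q w.1 = s then (g w : ℝ) else 0) * G s := by
      intro w
      have hmem : (M i).run q w.1 ∈ imgs (M i) q K := by
        have := mem_imgs (M i) (q := q) (w := w.1)
        rwa [mem_words.1 w.2] at this
      rw [Finset.sum_eq_single_of_mem _ hmem]
      · rw [if_pos rfl]
      · intro s _ hs
        rw [if_neg (fun h => hs h.symm), zero_mul]
    simp_rw [h5]
    rw [Finset.sum_comm]
    apply Finset.sum_eq_zero
    intro s hs
    rw [← Finset.sum_mul, h2 s hs, zero_mul]

/-! ### The alphabet -/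

section alphabet

variable (K : ℕ) (g : List A → ℤ)

/-- a bound -/
def bd : ℕ := 1 + ∑ w ∈ words A K, (g w).natAbs

lemma bd_pos {w : List A} (hw : w ∈ words A K) : 0 < (bd K g : ℤ) + g w := by
  have h1 : (g w).natAbs ≤ ∑ w ∈ words A K, (g w).natAbs :=
    Finset.single_le_sum (f := fun w => (g w).natAbs) (fun _ _ => Nat.zero_le _) hw
  unfold bd
  omega

/-- every word `w` of length `K` gives `bd + g w` letters -/
def Alph : Type := Σ w : {w // w ∈ words A K}, Fin ((bd K g + g w.1).toNat)

noncomputable instance : Fintype (Alph K g) := by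
  unfold Alph
  infer_instance

noncomputable instance : DecidableEq (Alph K g) := Classical.decEq _

instance [Nonempty A] : Nonempty (Alph K g) := by
  obtain ⟨a⟩ := ‹Nonempty A›
  have hw : List.replicate K a ∈ words A K := mem_words.2 (List.length_replicate)
  have h : 0 < (bd K g : ℤ) + g (List.replicate K a) := bd_pos K g hw
  refine ⟨⟨⟨_, hw⟩, ⟨0, ?_⟩⟩⟩
  show 0 < ((bd K g : ℤ) + g (List.replicate K a)).toNat
  omega

/-- the word of a letter -/
def wordOf (a : Alph K g) : List A := a.1.1

lemma wordOf_length (a : Alph K g) : (wordOf K g a).length = K := mem_words.1 a.1.2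

lemma sum_alph (F : List A → ℝ) :
    ∑ a : Alph K g, F (wordOf K g a) = ∑ w ∈ words A K, ((bd K g : ℝ) + g w) * F w := by
  have h : ∑ a : Alph K g, F (wordOf K g a) =
      ∑ w : {w // w ∈ words A K}, ∑ _j : Fin ((bd K g + g w.1).toNat), F w.1 :=
    Fintype.sum_sigma (fun a : Σ w : {w // w ∈ words A K}, Fin ((bd K g + g w.1).toNat) =>
      F a.1.1)
  rw [h, ← Finset.sum_coe_sort (words A K)]
  apply Finset.sum_congr rfl
  intro w _
  rw [Finset.sum_const, Finset.card_univ, Fintype.card_fin, nsmul_eq_mul]
  congr 1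
  have h1 := bd_pos K g w.2
  have h2 : (((bd K g + g w.1).toNat : ℕ) : ℤ) = bd K g + g w.1 := Int.toNat_of_nonneg h1.le
  have h3 : (((bd K g + g w.1).toNat : ℕ) : ℝ) = (((bd K g + g w.1).toNat : ℕ) : ℤ) := by
    norm_cast
  rw [h3, h2]
  push_cast
  rfl

variable {K g}

lemma card_alph (hg : ∑ w ∈ words A K, g w = 0) :
    (Fintype.card (Alph K g) : ℝ) = bd K g * (Fintype.card A : ℝ) ^ K := by
  have h := sum_alph K g (fun _ => 1)
  rw [Finset.sum_const, Finset.card_univ, nsmul_eq_mul, mul_one] at h
  rw [h]
  simp only [mul_one]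
  rw [Finset.sum_add_distrib, Finset.sum_const, nsmul_eq_mul, card_words]
  have : ∑ w ∈ words A K, (g w : ℝ) = 0 := by exact_mod_cast hg
  rw [this]
  ring

lemma bd_pos' : (0 : ℝ) < bd K g := by
  unfold bd
  positivity

variable [Nonempty A]

omit [Nonempty A] in
lemma avg {Q Γ : Type} (hg : ∑ w ∈ words A K, g w = 0) (M : Machine A Q Γ) (q : Q)
    (hM : ∀ G : Q × List Γ → ℝ, ∑ w ∈ words A K, (g w : ℝ) * G (M.run q w) = 0)
    (F : List A → ℝ) (G : Q × List Γ → ℝ) (hF : ∀ w, F w = G (M.run q w)) :
    (∑ a : Alph K g, F (wordOf K g a)) / Fintype.card (Alph K g) = E A K F := by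
  rw [sum_alph, card_alph hg]
  unfold E
  have h1 : ∑ w ∈ words A K, ((bd K g : ℝ) + g w) * F w = bd K g * ∑ w ∈ words A K, F w := by
    rw [Finset.mul_sum]
    have h2 : ∑ w ∈ words A K, (g w : ℝ) * F w = 0 := by
      simp_rw [hF]
      exact hM G
    simp_rw [add_mul]
    rw [Finset.sum_add_distrib, h2, add_zero]
  rw [h1, mul_div_mul_left _ _ bd_pos'.ne']

/-- the concatenation -/
def flat (W : List (Alph K g)) : List A := (W.map (wordOf K g)).flatten

omit [Nonempty A] in
lemma flat_cons (a : Alph K g) (W : List (Alph K g)) : flat (a :: W) = wordOf K g a ++ flat W := by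
  simp [flat]

omit [Nonempty A] in
lemma flat_append (W W' : List (Alph K g)) : flat (W ++ W') = flat W ++ flat W' := by
  simp [flat]

omit [Nonempty A] in
lemma flat_length (W : List (Alph K g)) : (flat W).length = W.length * K := by
  induction W with
  | nil => simp [flat]
  | cons a W ih =>
    rw [flat_cons, List.length_append, wordOf_length, ih, List.length_cons]
    ring

omit [Nonempty A] in
lemma E_flat {Q Γ : Type} (hg : ∑ w ∈ words A K, g w = 0) (M : Machine A Q Γ)
    (hM : ∀ (q : Q) (G : Q × List Γ → ℝ), ∑ w ∈ words A K, (g w : ℝ) * G (M.run q w) = 0)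
    (m : ℕ) (q : Q) (F : List A → ℝ) (G : Q × List Γ → ℝ) (hF : ∀ w, F w = G (M.run q w)) :
    E (Alph K g) m (fun W => F (flat W)) = E A (m * K) F := by
  induction m generalizing q F G with
  | zero => simp [E_zero, flat]
  | succ m ih =>
    rw [E_succ]
    have e : (m + 1) * K = K + m * K := by ring
    rw [e, E_append]
    have h1 : ∀ a : Alph K g, E (Alph K g) m (fun W => F (flat (a :: W))) =
        E A (m * K) (fun l => F (wordOf K g a ++ l)) := by
      intro a
      have h2 := ih (M.after q (wordOf K g a)) (fun l => F (wordOf K g a ++ l))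
        (fun s => G (s.1, M.outs q (wordOf K g a) ++ s.2)) (fun w => by
          rw [hF]
          unfold Machine.run
          rw [M.after_append, M.outs_append])
      simp only [flat_cons]
      exact h2
    simp_rw [h1]
    exact avg hg M q (hM q) (fun w => E A (m * K) (fun l => F (w ++ l)))
      (fun s => E A (m * K) (fun l => G (M.after s.1 l, s.2 ++ M.outs s.1 l))) (fun w => by
        congr 1
        funext l
        rw [hF]
        unfold Machine.run
        simp only
        rw [M.after_append, M.outs_append])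

end alphabet

/-! ### Machines which copy -/

lemma prob_copy {Q : Type} (M : Machine A Q A) (h : ∀ q a, M.out q a = a) (q : Q) (w : List A) :
    M.prob q w = 1 / (Fintype.card A : ℝ) ^ w.length := by
  classical
  induction w generalizing q with
  | nil => simp [Machine.prob]
  | cons a w ih =>
    simp only [Machine.prob, h]
    rw [Finset.sum_ite_eq' Finset.univ a, if_pos (Finset.mem_univ _), ih, List.length_cons,
      pow_succ, div_div]

omit [Fintype A] [DecidableEq A] in
lemma output_copy {Q : Type} (M : Machine A Q A) (h : ∀ q a, M.out q a = a) (s : Q) (x : ℕ → A) :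
    M.output s x = x := by
  funext n
  exact h _ _

open Classical in
/-- `1` if `P` is true and `0` if it is false -/
noncomputable def ind (P : Prop) : ℝ := if P then 1 else 0

lemma ind_pos {P : Prop} (h : P) : ind P = 1 := by
  unfold ind
  rw [if_pos h]

lemma ind_neg {P : Prop} (h : ¬ P) : ind P = 0 := by
  unfold ind
  rw [if_neg h]

lemma ind_eq (P : Prop) [Decidable P] : ind P = if P then 1 else 0 := by
  by_cases h : P
  · rw [ind_pos h, if_pos h]
  · rw [ind_neg h, if_neg h]

open Classical in
lemma Fair.set {x : ℕ → A} (hx : Fair x) {Q : Type} [Finite Q] (M : Machine A Q A)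
    (h : ∀ q a, M.out q a = a) (s q : Q) (m : ℕ) (P : List A → Prop) :
    Small fun N => cnt (fun n => M.state s x n = q ∧ P (FS.window x n m)) N -
      cnt (fun n => M.state s x n = q) N * E A m (fun w => ind (P w)) := by
  have h1 : Small fun N => ∑ w ∈ (words A m).filter P,
      (cnt (fun n => M.state s x n = q ∧ FS.window (M.output s x) n w.length = w) N -
      cnt (fun n => M.state s x n = q) N * M.prob q w) :=
    Small.sum fun w _ => hx.window w Q inferInstance M s q
  refine h1.congr fun N => ?_
  rw [Finset.sum_sub_distrib]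
  congr 1
  · rw [cnt_fiber ((words A m).filter P) (fun n => FS.window x n m)]
    · apply Finset.sum_congr rfl
      intro w hw
      rw [Finset.mem_filter, mem_words] at hw
      apply cnt_congr
      intro n
      rw [output_copy M h, hw.1]
      constructor
      · rintro ⟨h2, h3⟩
        refine ⟨⟨h2, ?_⟩, h3⟩
        rw [h3]
        exact hw.2
      · rintro ⟨⟨h2, _⟩, h3⟩
        exact ⟨h2, h3⟩
    · intro n hn
      rw [Finset.mem_filter, mem_words, window_length]
      exact ⟨rfl, hn.2⟩
  · rw [← Finset.mul_sum]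
    congr 1
    unfold E ind
    rw [← Finset.sum_filter, Finset.sum_div]
    apply Finset.sum_congr rfl
    intro w hw
    rw [Finset.mem_filter, mem_words] at hw
    rw [prob_copy M h, hw.1]

end Pool.Agent.Helper70.FS
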