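import Pool.Agent.Helper70.FS.Final

/-!
All machines with at most `S` states which are not lossless can be fooled by one sequence; and
all machines which are not lossless together decide normality.
-/

set_option autoImplicit false

namespace Pool.Agent.Helper70.FS

open Finset Filter Topology Asymptotics

instance {A Q Γ : Type} [Finite A] [Finite Q] [Finite Γ] : Finite (Machine A Q Γ) :=
  Finite.of_injective (fun M : Machine A Q Γ => (M.next, M.out)) (by
    rintro ⟨n, o⟩ ⟨n', o'⟩ h
    rw [Prod.mk.injEq] at h
    simp only at h
    rw [h.1, h.2])

section transport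

variable {A Q Q' Γ Γ' : Type} (M : Machine A Q Γ) (e : Q ≃ Q') (f : Γ → Γ')

/-- the machine with renamed states and renamed letters -/
def rename : Machine A Q' Γ' where
  next := fun q a => e (M.next (e.symm q) a)
  out := fun q a => f (M.out (e.symm q) a)

lemma rename_after (q : Q) (l : List A) : (rename M e f).after (e q) l = e (M.after q l) := by
  induction l generalizing q with
  | nil => rfl
  | cons a l ih =>
    rw [Machine.after_cons, Machine.after_cons, ← ih]
    simp [rename]

lemma rename_outs (q : Q) (l : List A) : (rename M e f).outs (e q) l = (M.outs q l).map f := by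
  induction l generalizing q with
  | nil => rfl
  | cons a l ih =>
    rw [Machine.outs_cons, Machine.outs_cons, List.map_cons, ← ih]
    simp [rename]

lemma rename_state (s : Q) (x : ℕ → A) (n : ℕ) :
    (rename M e f).state (e s) x n = e (M.state s x n) := by
  induction n with
  | zero => rfl
  | succ n ih =>
    show (rename M e f).next ((rename M e f).state (e s) x n) (x n) = _
    rw [ih]
    simp [rename, Machine.state]

lemma rename_output (s : Q) (x : ℕ → A) (n : ℕ) :
    (rename M e f).output (e s) x n = f (M.output s x n) := by
  show (rename M e f).out ((rename M e f).state (e s) x n) (x n) = _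
  rw [rename_state]
  simp [rename, Machine.output]

lemma rename_connected (h : M.Connected) : (rename M e f).Connected := by
  intro q q'
  obtain ⟨l, hl⟩ := h (e.symm q) (e.symm q')
  refine ⟨l, ?_⟩
  have := rename_after M e f (e.symm q) l
  rw [e.apply_symm_apply] at this
  rw [this, hl, e.apply_symm_apply]

lemma rename_not_lossless (h : ¬ M.Lossless) : ¬ (rename M e f).Lossless := by
  intro h2
  apply h
  intro q u v h3 h4
  apply h2 (e q) u v
  · rw [rename_after, rename_after, h3]
  · rw [rename_outs, rename_outs, h4]

lemma window_map {B B' : Type} (f : B → B') (y : ℕ → B) (n k : ℕ) :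
    window (fun n => f (y n)) n k = (window y n k).map f := by
  induction k generalizing n with
  | zero => rfl
  | succ k ih => simp [window, ih]

lemma mem_outs (q : Q) (l : List A) {g : Γ} (hg : g ∈ M.outs q l) : ∃ q a, g = M.out q a := by
  induction l generalizing q with
  | nil => simp at hg
  | cons a l ih =>
    rw [Machine.outs_cons, List.mem_cons] at hg
    rcases hg with h | h
    · exact ⟨q, a, h⟩
    · exact ih _ h

lemma map_inj_on {R : Set Γ} (hf : Set.InjOn f R) (l l' : List Γ) (hl : ∀ g ∈ l, g ∈ R)
    (hl' : ∀ g ∈ l', g ∈ R) : l.map f = l'.map f ↔ l = l' := by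
  constructor
  · intro h
    induction l generalizing l' with
    | nil =>
      rcases l' with _ | ⟨a, l'⟩
      · rfl
      · simp at h
    | cons b l ih =>
      rcases l' with _ | ⟨a, l'⟩
      · simp at h
      · rw [List.map_cons, List.map_cons, List.cons.injEq] at h
        rw [hf (hl b (List.mem_cons_self)) (hl' a (List.mem_cons_self)) h.1,
          ih l' (fun g hg => hl g (List.mem_cons_of_mem _ hg))
            (fun g hg => hl' g (List.mem_cons_of_mem _ hg)) h.2]
  · rintro rfl
    rfl

variable [Fintype A] [DecidableEq A] [Nonempty A] [Fintype Q] [Fintype Q']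

omit [Nonempty A] in
lemma rename_typical (hf : Set.InjOn f {g | ∃ q a, g = M.out q a}) (s : Q) (x : ℕ → A)
    (h : (rename M e f).Typical ((rename M e f).output (e s) x)) : M.Typical (M.output s x) := by
  classical
  obtain ⟨p, hp, hlim⟩ := h
  refine ⟨fun q => p (e q), ⟨fun q => hp.1 _, ?_, ?_⟩, ?_⟩
  · rw [← hp.2.1]
    exact e.sum_comp p
  · intro q'
    refine Eq.trans ?_ (hp.2.2 (e q'))
    rw [← e.sum_comp]
    apply Finset.sum_congr rfl
    intro q _
    apply Finset.sum_congr rfl
    intro a _
    by_cases h2 : M.next q a = q'
    · rw [if_pos h2, if_pos (by simp [rename, h2])]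
    · rw [if_neg h2, if_neg (by simpa [rename] using h2)]
  · intro c
    by_cases hc : ∀ g ∈ c, ∃ q a, g = M.out q a
    · have h1 := hlim (c.map f)
      have hprob : ∀ q, (rename M e f).prob (e q) (c.map f) = M.prob q c := by
        intro q
        rw [prob_eq, prob_eq, List.length_map]
        congr 2
        apply Finset.card_bij (fun u _ => u)
        · intro u hu
          rw [Finset.mem_filter] at hu ⊢
          refine ⟨hu.1, ?_⟩
          rw [rename_outs] at hu
          exact (map_inj_on f hf _ _ (fun g hg => mem_outs M q u hg) hc).1 hu.2
        · intro u _ v _ huv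
          exact huv
        · intro u hu
          rw [Finset.mem_filter] at hu
          refine ⟨u, ?_, rfl⟩
          rw [Finset.mem_filter]
          refine ⟨hu.1, ?_⟩
          rw [rename_outs, hu.2]
      have hsum : ∑ q, p (e q) * M.prob q c =
          ∑ q, p q * (rename M e f).prob q (c.map f) := by
        rw [← e.sum_comp]
        apply Finset.sum_congr rfl
        intro q _
        rw [hprob]
      rw [hsum]
      refine h1.congr fun N => ?_
      congr 1
      rw [occ_eq_cnt, occ_eq_cnt, List.length_map]
      apply cnt_congr
      intro n
      have h2 : (rename M e f).output (e s) x = fun n => f (M.output s x n) := by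
        funext n
        exact rename_output M e f s x n
      rw [h2, window_map]
      apply map_inj_on f hf
      · intro g hg
        rw [M.window_output] at hg
        exact mem_outs M _ _ hg
      · exact hc
    · push Not at hc
      obtain ⟨g, hg, hne⟩ := hc
      have h1 : ∀ q, M.prob q c = 0 := by
        intro q
        rw [prob_eq]
        have : ((words A c.length).filter fun u => M.outs q u = c) = ∅ := by
          rw [Finset.filter_eq_empty_iff]
          intro u _ hu
          rw [← hu] at hg
          obtain ⟨q', a, h⟩ := mem_outs M q u hg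
          exact hne q' a h
        rw [this]
        simp
      have h2 : ∀ N, occ (M.output s x) c N = 0 := by
        intro N
        have h3 : (occ (M.output s x) c N : ℝ) = 0 := by
          rw [occ_eq_cnt, cnt_eq_sum]
          apply Finset.sum_eq_zero
          intro n _
          rw [if_neg]
          intro h4
          rw [M.window_output] at h4
          rw [← h4] at hg
          obtain ⟨q', a, h⟩ := mem_outs M _ _ hg
          exact hne q' a h
        exact_mod_cast h3
      simp only [h1, h2, mul_zero, Finset.sum_const_zero, Nat.cast_zero, zero_div]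
      exact tendsto_const_nhds

end transport

section

variable {A : Type} [Fintype A] [DecidableEq A] [Nonempty A]

/-- **One sequence for all small machines.** -/
theorem fool_all (hA : 2 ≤ Fintype.card A) (S : ℕ) :
    ∃ x : ℕ → A, ¬ NormalSeq x ∧ (∀ (Q Γ : Type) (_ : Fintype Q) (M : Machine A Q Γ) (s : Q),
      Fintype.card Q ≤ S → M.Connected → ¬ M.Lossless → M.Typical (M.output s x)) ∧
      ∀ a N, ∃ n, N ≤ n ∧ x n = a := by
  classical
  let ι : Type := Σ s : Fin (S + 1), {M : Machine A (Fin s) (Fin (s * Fintype.card A)) //
    M.Connected ∧ ¬ M.Lossless}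
  have : Fintype ι := Fintype.ofFinite ι
  obtain ⟨x, h1, h2, h3⟩ := fool hA (ι := ι) (fun i => Fin i.1)
    (fun i => Fin (i.1 * Fintype.card A)) (fun i => i.2.1) (fun i => i.2.2.1) (fun i => i.2.2.2)
  refine ⟨x, h1, ?_, h3⟩
  intro Q Γ _ M s hQ hM hL
  let e := Fintype.equivFin Q
  set R : Finset Γ := (Finset.univ : Finset (Q × A)).image fun p => M.out p.1 p.2 with hR
  have hRcard : Fintype.card {g // g ∈ R} ≤ Fintype.card (Fin (Fintype.card Q * Fintype.card A)) := by
    rw [Fintype.card_coe, Fintype.card_fin, ← Fintype.card_prod]
    exact Finset.card_image_le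
  obtain ⟨f₀⟩ := Function.Embedding.nonempty_of_card_le hRcard
  have hpos : 0 < Fintype.card Q * Fintype.card A :=
    Nat.mul_pos (Fintype.card_pos_iff.2 ⟨s⟩) Fintype.card_pos
  let f : Γ → Fin (Fintype.card Q * Fintype.card A) := fun g =>
    if h : g ∈ R then f₀ ⟨g, h⟩ else ⟨0, hpos⟩
  have hf : Set.InjOn f {g | ∃ q a, g = M.out q a} := by
    rintro g ⟨q, a, hg⟩ g' ⟨q', a', hg'⟩ hgg
    have hgR : g ∈ R := by
      rw [hR, Finset.mem_image]
      exact ⟨(q, a), Finset.mem_univ _, hg.symm⟩
    have hgR' : g' ∈ R := by
      rw [hR, Finset.mem_image]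
      exact ⟨(q', a'), Finset.mem_univ _, hg'.symm⟩
    simp only [f, dif_pos hgR, dif_pos hgR'] at hgg
    have := f₀.injective hgg
    exact congrArg Subtype.val this
  exact rename_typical M e f hf s x (h2 ⟨⟨Fintype.card Q, by omega⟩,
    ⟨rename M e f, rename_connected M e f hM, rename_not_lossless M e f hL⟩⟩ (e s))


/-! ### Machines which detect a word -/

/-- The machine remembers the last `m` letters and writes whether the last `m + 1` letters form
the word `w`. -/
def detector (m : ℕ) (w : List A) : Machine A {l : List A // l ∈ words A (m + 1)} Bool where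
  next := fun l a => ⟨(l.1 ++ [a]).tail, by
    rw [mem_words, List.length_tail, List.length_append, mem_words.1 l.2]
    simp⟩
  out := fun l a => decide (l.1 ++ [a] = w)

omit [Nonempty A] in
lemma detector_after (m : ℕ) (w : List A) (l : {l : List A // l ∈ words A (m + 1)})
    (u : List A) : ((detector m w).after l u).1 = (l.1 ++ u).drop u.length := by
  induction u generalizing l with
  | nil => simp
  | cons a u ih =>
    rw [Machine.after_cons, ih]
    have e1 : ((detector m w).next l a).1 = (l.1 ++ [a]).tail := rfl
    have hl : (l.1 ++ [a]) ≠ [] := by simp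
    have e2 : l.1 ++ a :: u = (l.1 ++ [a]) ++ u := by simp
    rw [e1, e2, List.length_cons, ← List.tail_append_of_ne_nil hl, List.drop_tail]

omit [Nonempty A] in
lemma detector_connected (m : ℕ) (w : List A) : (detector m w).Connected := by
  intro q q'
  refine ⟨q'.1, Subtype.ext ?_⟩
  rw [detector_after, mem_words.1 q'.2, List.drop_left' (mem_words.1 q.2)]

omit [Nonempty A] in
lemma detector_silent (m : ℕ) (w : List A)
    (l : {l : List A // l ∈ words A (m + 1)}) (u : List A)
    (h : ∀ i, ((l.1 ++ u).drop i).take (m + 2) ≠ w) :
    (detector m w).outs l u = List.replicate u.length false := by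
  induction u generalizing l with
  | nil => rfl
  | cons a u ih =>
    have hl : (l.1 ++ [a]) ≠ [] := by simp
    have e2 : l.1 ++ a :: u = (l.1 ++ [a]) ++ u := by simp
    rw [Machine.outs_cons, List.length_cons, List.replicate_succ]
    congr 1
    · show decide (l.1 ++ [a] = w) = false
      rw [decide_eq_false_iff_not]
      intro h1
      apply h 0
      rw [List.drop_zero, e2, List.take_left' (by
        rw [List.length_append, mem_words.1 l.2]
        simp)]
      exact h1
    · apply ih
      intro i h1
      apply h (i + 1)
      have e1 : ((detector m w).next l a).1 = (l.1 ++ [a]).tail := rfl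
      rw [e1, ← List.tail_append_of_ne_nil hl, ← e2, List.drop_tail] at h1
      exact h1

omit [Nonempty A] in
lemma detector_not_lossless (hA : 2 ≤ Fintype.card A) (m : ℕ) (hm : 1 ≤ m) (w : List A)
    (hw : w.length = m + 2) : ¬ (detector m w).Lossless := by
  intro hL
  -- a letter which differs from at least two letters of `w`
  have hc : ∃ c : A, 2 ≤ w.countP (fun x => decide (x ≠ c)) := by
    obtain ⟨c₁, c₂, hne⟩ := Fintype.exists_pair_of_one_lt_card (α := A) (by omega)
    by_contra hcon
    push Not at hcon
    have h1 := hcon c₁
    have h2 := hcon c₂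
    have h3 : ∀ v : List A, v.length ≤ v.countP (fun x => decide (x ≠ c₁)) +
        v.countP (fun x => decide (x ≠ c₂)) := by
      intro v
      induction v with
      | nil => simp
      | cons x v ih =>
        rw [List.length_cons, List.countP_cons, List.countP_cons]
        have h5 : 1 ≤ (if decide (x ≠ c₁) = true then 1 else 0) +
            (if decide (x ≠ c₂) = true then 1 else 0) := by
          by_cases hx : x = c₁
          · have h6 : x ≠ c₂ := by rw [hx]; exact hne
            rw [if_pos (decide_eq_true h6)]
            omega
          · rw [if_pos (decide_eq_true hx)]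
            omega
        omega
    have h4 := h3 w
    omega
  obtain ⟨c, hc⟩ := hc
  obtain ⟨α, hα⟩ := Fintype.exists_ne_of_one_lt_card (α := A) (by omega) c
  set r : List A := List.replicate (m + 1) c with hr
  have hrw : r ∈ words A (m + 1) := mem_words.2 List.length_replicate
  have hrc : r.countP (fun x => decide (x ≠ c)) = 0 := by
    rw [List.countP_eq_zero]
    intro x hx
    have := List.eq_of_mem_replicate hx
    simp [this]
  have hsil : ∀ x : A, (detector m w).outs ⟨r, hrw⟩ (r ++ (x :: r)) =
      List.replicate (r ++ (x :: r)).length false := by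
    intro x
    apply detector_silent m w
    intro i h
    have h1 : w.Sublist (r ++ (r ++ (x :: r))) := by
      rw [← h]
      exact (List.take_sublist _ _).trans (List.drop_sublist _ _)
    have h2 := h1.countP_le (p := fun x => decide (x ≠ c))
    rw [List.countP_append, List.countP_append, List.countP_cons, hrc] at h2
    have h3 : (if decide (x ≠ c) = true then 1 else 0) ≤ 1 := by split_ifs <;> omega
    omega
  have hend : ∀ x : A, (detector m w).after ⟨r, hrw⟩ (r ++ (x :: r)) = ⟨r, hrw⟩ := by
    intro x
    apply Subtype.ext
    rw [detector_after]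
    have e : r ++ (r ++ x :: r) = (r ++ (r ++ [x])) ++ r := by simp
    show (r ++ (r ++ x :: r)).drop (r ++ x :: r).length = r
    rw [e, List.drop_left' (by simp)]
  have h1 := hL ⟨r, hrw⟩ (r ++ (c :: r)) (r ++ (α :: r)) (by rw [hend, hend]) (by
    rw [hsil, hsil]
    simp)
  have h2 := List.append_cancel_left h1
  rw [List.cons.injEq] at h2
  exact hα h2.1.symm

omit [Nonempty A] in
lemma detector_state (m : ℕ) (w : List A) (s : {l : List A // l ∈ words A (m + 1)})
    (x : ℕ → A) (n : ℕ) : ((detector m w).state s x (n + (m + 1))).1 = window x n (m + 1) := by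
  rw [Machine.state_add, detector_after, window_length,
    List.drop_left' (mem_words.1 ((detector m w).state s x n).2)]

omit [Nonempty A] in
lemma detector_output (m : ℕ) (w : List A) (s : {l : List A // l ∈ words A (m + 1)})
    (x : ℕ → A) (n : ℕ) : (detector m w).output s x (n + (m + 1)) = true ↔
      window x n (m + 2) = w := by
  have h : (detector m w).output s x (n + (m + 1)) =
      decide (((detector m w).state s x (n + (m + 1))).1 ++ [x (n + (m + 1))] = w) := rfl
  rw [h, detector_state, decide_eq_true_iff]
  have e : window x n (m + 2) = window x n (m + 1) ++ window x (n + (m + 1)) 1 := by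
    rw [← window_add]
  rw [e]
  rfl

omit [Nonempty A] in
lemma detector_small (m : ℕ) (w : List A) (hw : w.length = m + 2)
    (s : {l : List A // l ∈ words A (m + 1)}) (x : ℕ → A) :
    Small fun N => (occ ((detector m w).output s x) [true] N : ℝ) - occ x w N := by
  apply small_of_bdd ((m + 1 : ℕ) : ℝ)
  intro N
  rw [occ_eq_cnt, occ_eq_cnt, hw]
  set P : ℕ → Prop := fun n => window ((detector m w).output s x) n [true].length = [true] with hP
  have h1 : ∀ r, |cnt (fun n => P (n + r)) N - cnt P N| ≤ r := by
    intro r
    induction r with
    | zero => simp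
    | succ r ih =>
      have h2 := cnt_shift_sub (fun n => P (n + r)) N
      have e : (fun n => P (n + 1 + r)) = fun n => P (n + (r + 1)) := by
        funext n
        congr 1
        omega
      simp only [e] at h2
      rw [abs_le] at h2 ih ⊢
      push_cast
      constructor <;> linarith
  have h2 := h1 (m + 1)
  have h3 : cnt (fun n => P (n + (m + 1))) N = cnt (fun n => window x n (m + 2) = w) N := by
    apply cnt_congr
    intro n
    rw [← detector_output m w s x n]
    simp [P, window]
  rw [h3] at h2
  rw [abs_sub_comm]
  exact h2

/-- **All machines which are not lossless together decide normality.** -/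
theorem normal_of_all (hA : 2 ≤ Fintype.card A) (x : ℕ → A)
    (h : ∀ (Q Γ : Type) (_ : Fintype Q) (M : Machine A Q Γ) (s : Q),
      M.Connected → ¬ M.Lossless → M.Typical (M.output s x)) : NormalSeq x := by
  have hb : Bounded x ((Fintype.card A : ℝ) ^ 3) := by
    intro w η hη
    have hcard : (1 : ℝ) ≤ Fintype.card A := one_le_card
    rcases Nat.lt_or_ge w.length 3 with hw | hw
    · filter_upwards with N
      rw [occ_eq_cnt]
      refine (cnt_le _ N).trans ?_
      have h1 : (1 : ℝ) ≤ (Fintype.card A : ℝ) ^ 3 / (Fintype.card A : ℝ) ^ w.length := by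
        rw [one_le_div (by positivity)]
        exact pow_le_pow_right₀ hcard hw.le
      have h2 : (0 : ℝ) ≤ N := Nat.cast_nonneg N
      nlinarith
    · obtain ⟨m, hm⟩ : ∃ m, w.length = m + 2 := ⟨w.length - 2, by omega⟩
      have hm1 : 1 ≤ m := by omega
      obtain ⟨a⟩ := ‹Nonempty A›
      have : Nonempty A := ⟨a⟩
      have hs : List.replicate (m + 1) a ∈ words A (m + 1) := mem_words.2 List.length_replicate
      have hnl := detector_not_lossless hA m hm1 w hm
      obtain ⟨p, hp, hlim⟩ := h _ _ inferInstance (detector m w) ⟨_, hs⟩
        (detector_connected m w) hnl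
      obtain ⟨x', hx'⟩ := exists_normalSeq A
      -- the limits
      have key : ∀ x : ℕ → A, Tendsto (fun N : ℕ =>
          (occ ((detector m w).output ⟨_, hs⟩ x) [true] N : ℝ) / N) atTop
          (𝓝 (∑ q, p q * (detector m w).prob q [true])) →
          Tendsto (fun N : ℕ => (occ x w N : ℝ) / N) atTop
          (𝓝 (∑ q, p q * (detector m w).prob q [true])) := by
        intro x hx
        have h1 := detector_small m w hm ⟨_, hs⟩ x
        rw [small_iff] at h1
        have h2 := hx.sub h1
        rw [sub_zero] at h2
        exact h2.congr fun N => by ring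
      have h1 := key x (hlim [true])
      have h2 := key x' (hx'.fair.typical (detector m w) (detector_connected m w) hp _ [true])
      have h3 := tendsto_nhds_unique h2 (hx' w)
      rw [h3] at h1
      filter_upwards [h1.eventually (gt_mem_nhds (lt_add_of_pos_right _ hη)),
        eventually_gt_atTop 0] with N hN hN0
      have hNr : (0 : ℝ) < N := by exact_mod_cast hN0
      rw [div_lt_iff₀ hNr] at hN
      refine hN.le.trans ?_
      apply mul_le_mul_of_nonneg_right _ hNr.le
      have h4 : 1 / (Fintype.card A : ℝ) ^ w.length ≤
          (Fintype.card A : ℝ) ^ 3 / (Fintype.card A : ℝ) ^ w.length :=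
        div_le_div_of_nonneg_right (one_le_pow₀ hcard) (by positivity)
      linarith
  exact (hb.fair (by positivity)).normal

end

end Pool.Agent.Helper70.FS
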